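import Pool.Agent.H402.FF.Defs

/-!
# Project FF (helper402, MP_b48e27_co): the statements

Every `S_X` is a closed proposition; each task is: prove `theorem holds : S_X` or
`theorem holds (h : S_Y) : S_X`.
-/

set_option autoImplicit false

open Finset

namespace Pool.Agent.H402.FF

universe u

/-! ## Part 1: bounded minors, partitions -/

/-- **CORE.** Tensors of large slice rank have minors of bounded size and large slice rank.

Proof.  Use the library theorem
`Pool.Agent.Results.MP_898d8d_co.SliceRankLinearCore.result` (first part, `d = 3`; file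
`Pool/Graph/R_pool_sql_team_seeded_1e53cb71/Results/MP_898d8d_co/SliceRankLinearCore.lean`): for
`T : Tensor F 3 = (Fin 3 → ℕ) →₀ F` there are `J i` with at most `sliceRank T` elements and
`sliceRank T ≤ 144 ^ 3 * sliceRank (restrict J T)`.  Put `K = 144 ^ 3 * m + 1` or so.  Deleting one
index in the first direction lowers the slice rank by at most one, and the empty tensor has slice
rank `0`; so `T` has a restriction (to `{x < n'}`) whose slice rank is exactly `K - 1` (or any value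
wanted), and the library theorem applied to it (extended by zero to `ℕ ^ 3`) gives index sets of
size at most `K`.  Index sets of size at most `K`, nonempty, are images of maps `Fin K → Fin n`
(repetitions do not lower the slice rank of the minor).  `SL T k` for `T` on `Fin n₁ × Fin n₂ × Fin n₃`
is equivalent to `sliceRank < k` for the extension by zero. -/
def S_core : Prop := ∀ m : ℕ, ∃ K : ℕ, ∀ (F : Type u) [Field F] (n₁ n₂ n₃ : ℕ)
  (T : Fin n₁ → Fin n₂ → Fin n₃ → F), ¬ SL T K →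
  ∃ (px : Fin K → Fin n₁) (py : Fin K → Fin n₂) (pz : Fin K → Fin n₃),
    ¬ SL (fun i j k => T (px i) (py j) (pz k)) m

/-- **PART.** If the third difference of `T` vanishes on each box of equivalent points, the slice
rank is at most `3 N`.

Proof.  For each class `α : Fin N` of `f` which is not empty choose a point `x_α`, the same for `g`
and `h`.  The hypothesis for the pairs `(x, x_(f x))`, `(y, y_(g y))`, `(z, z_(h z))` gives
`T x y z = [T x_α y z - T x_α y_β z - T x_α y z_γ + T x_α y_β z_γ] + [T x y_β z - T x y_β z_γ] + T x y z_γ`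
with `α = f x`, `β = g y`, `γ = h z`; the brackets are functions of `(f x, y, z)`, `(g y, x, z)`,
`(h z, x, y)`, and `G (f x) y z = ∑ α, [f x = α] * G α y z`. -/
def S_part : Prop := ∀ (F : Type u) [Field F] (X Y Z : Type) (N : ℕ) (f : X → Fin N)
  (g : Y → Fin N) (h : Z → Fin N) (T : X → Y → Z → F),
  (∀ (x : Bool → X) (y : Bool → Y) (z : Bool → Z), f (x true) = f (x false) →
    g (y true) = g (y false) → h (z true) = h (z false) →
    Dz (fun s t r => T (x s) (y t) (z r))) → SL T (3 * N + 1)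

/-! ## Part 2: sequences -/

/-- **ULT.** `t : X × Y × Z → κ` a colouring, `D` a property of boxes.  If there is no finite
partition for which all boxes of equivalent points have `D`, there are ultrafilters `p, q, r` such
that each box `P × Q × R` of sets in `p, q, r` contains a box without `D`.

Proof.  Otherwise each triple `(p, q, r)` has sets `P ∈ p, Q ∈ q, R ∈ r` such that all boxes in
`P × Q × R` have `D`.  The space `Ultrafilter X × Ultrafilter Y × Ultrafilter Z` is compact, and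
`{p' | P ∈ p'} × {q' | Q ∈ q'} × {r' | R ∈ r'}` is an open neighbourhood of `(p, q, r)`
(`ultrafilter_isOpen_basic`); take finitely many `(P_i, Q_i, R_i)`, `i < m`, covering the space.  Put
`x ~ x'` if they belong to the same `P_i`'s (the classes are numbered by subsets of `Fin m`,
`N = 2 ^ m`), the same for `Y, Z`.  Given a box of equivalent points `x, x', y, y', z, z'`, the
principal ultrafilters of `x, y, z` are covered by some `i`, so `x ∈ P_i`, `y ∈ Q_i`, `z ∈ R_i`, hence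
also `x', y', z'`, and the box has `D`. -/
def S_ult : Prop := ∀ (X Y Z κ : Type) (t : X → Y → Z → κ) (D : (Bool → Bool → Bool → κ) → Prop),
  (∀ (N : ℕ) (f : X → Fin N) (g : Y → Fin N) (h : Z → Fin N), ∃ (x : Bool → X) (y : Bool → Y)
    (z : Bool → Z), f (x true) = f (x false) ∧ g (y true) = g (y false) ∧
      h (z true) = h (z false) ∧ ¬ D (fun s u r => t (x s) (y u) (z r))) →
  ∃ (p : Ultrafilter X) (q : Ultrafilter Y) (r : Ultrafilter Z), ∀ P ∈ p, ∀ Q ∈ q, ∀ R ∈ r,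
    ∃ (x : Bool → X) (y : Bool → Y) (z : Bool → Z), (∀ s, x s ∈ P) ∧ (∀ s, y s ∈ Q) ∧
      (∀ s, z s ∈ R) ∧ ¬ D (fun s u r => t (x s) (y u) (z r))

/-- **SEQ.** From the ultrafilters to sequences of pairs of points on which the colour depends only
on the order type of the three indices and on the choices `s, u, r` in the pairs, it does not depend
on `s` if the first index is different from the two others (etc.), and `D` fails for equal indices.

Proof.  Let `Ω = (Bool → X) × (Bool → Y) × (Bool → Z)`.  The sets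
`{ω | ∀ s, ω.1 s ∈ P ∧ ω.2.1 s ∈ Q ∧ ω.2.2 s ∈ R, ¬ D (box of ω)}` have the finite intersection
property and generate a proper filter; let `w` be an ultrafilter containing it.  So `w` contains
`{ω | ¬ D ..}`, and for each `s` the image of `w` under `ω ↦ ω.1 s` is `p` (an ultrafilter containing
`p`), the same for `q, r`.  For a finite type `K` and a function `g : Ω → K` let `lim g` be the value
`c` with `g = c` `w`-almost everywhere (`Ultrafilter.eq_pure_of_finite` for `w.map g`).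
For three stages `ω₀, ω₁, ω₂` let `F₃ ω₀ ω₁ ω₂ : Fin 3 → Fin 3 → Fin 3 → Bool → Bool → Bool → κ` be the
table of all `t (x of ω_i, s) (y of ω_j, u) (z of ω_k, r)`; `F₂ ω₀ ω₁ = lim (F₃ ω₀ ω₁)`,
`F₁ ω₀ = lim F₂ ω₀`, `F₀ = lim F₁`.  Choose `ω₀, ω₁, …` recursively with `¬ D (box of ω_m)`,
`F₃ ω_a ω_b ω_m = F₂ ω_a ω_b` (`a < b < m`), `F₂ ω_a ω_m = F₁ ω_a` (`a < m`), `F₁ ω_m = F₀`
(finitely many `w`-large conditions).  Then `F₃ ω_a ω_b ω_c = F₀` for all `a < b < c`.  So
`t (x_i s) (y_j u) (z_k r)` depends only on the order type of `(i, j, k)` and `s, u, r` (given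
`i, j, k` add further larger stages to get three stages `a < b < c` containing them, in such a way
that the positions of `i, j, k` among `a, b, c` depend only on the order type).  Independence: let
`i ≠ j, k`.  In the iterated limit `lim_{ω₀} lim_{ω₁} lim_{ω₂}` the variable `x_i s` is the only
variable of its stage, and the limit over this stage of a function `g (ω.1 s)` is the `p`-limit of
`g`, which does not depend on `s`.  (Alternatively add to the recursive choice the requirement that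
all the later points `x s`, `x s'` give the same value with all previous points, and the same for
the iterated limits.) -/
def S_seq : Prop := ∀ (X Y Z κ : Type) [Finite κ] (t : X → Y → Z → κ)
  (D : (Bool → Bool → Bool → κ) → Prop) (p : Ultrafilter X) (q : Ultrafilter Y)
  (r : Ultrafilter Z),
  (∀ P ∈ p, ∀ Q ∈ q, ∀ R ∈ r,
    ∃ (x : Bool → X) (y : Bool → Y) (z : Bool → Z), (∀ s, x s ∈ P) ∧ (∀ s, y s ∈ Q) ∧
      (∀ s, z s ∈ R) ∧ ¬ D (fun s u r => t (x s) (y u) (z r))) →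
  ∃ (xs : ℕ → Bool → X) (ys : ℕ → Bool → Y) (zs : ℕ → Bool → Z)
    (V : Ordering → Ordering → Ordering → Bool → Bool → Bool → κ),
    (∀ (i j k : ℕ) (s u r : Bool), t (xs i s) (ys j u) (zs k r) =
      V (compare i j) (compare i k) (compare j k) s u r) ∧
    (∀ (i j k : ℕ) (s s' u r : Bool), i ≠ j → i ≠ k →
      t (xs i s) (ys j u) (zs k r) = t (xs i s') (ys j u) (zs k r)) ∧
    (∀ (i j k : ℕ) (s u u' r : Bool), j ≠ i → j ≠ k →
      t (xs i s) (ys j u) (zs k r) = t (xs i s) (ys j u') (zs k r)) ∧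
    (∀ (i j k : ℕ) (s u r r' : Bool), k ≠ i → k ≠ j →
      t (xs i s) (ys j u) (zs k r) = t (xs i s) (ys j u) (zs k r')) ∧
    ∀ i : ℕ, ¬ D (fun s u r => t (xs i s) (ys i u) (zs i r))

/-! ## Part 3: zero blocks -/

/-- `a` is a leading position of `U` for the order given by `ρ`. -/
def Ld {F : Type*} [Field F] {n : ℕ} (ρ : Fin (n + 1) → ℕ) (U : Submodule F (Fin (n + 1) → F))
    (a : Fin (n + 1)) : Prop :=
  ∃ u ∈ U, u a ≠ 0 ∧ ∀ b, ρ b < ρ a → u b = 0

/-- **CT (counting leading positions).**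

Proof.  (1) The number of leading positions of `U` is at least `finrank U`: the restriction map
`U → (leading positions → F)` is injective, since for `u ≠ 0` in `U` the position `a` with `u a ≠ 0`
and `ρ a` minimal is a leading position.  (2) For each `i : Fin n` not all three of
`Ld ρ₁ U i.succ`, `Ld ρ₂ V i.succ`, `Ld ρ₃ W i.succ` hold: for the three vectors `u, v, w` the sum
`∑ u a * v b * w c * N a b c` has the only nonzero term `(i, i, i)`.  (3) So the total number of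
leading positions is at most `3 + 2 n`, and it is at least `2 n + 3`: equality everywhere. -/
def S_ct : Prop := ∀ (F : Type u) [Field F] (n : ℕ) (N : Fin (n + 1) → Fin (n + 1) → Fin (n + 1) → F)
  (U V W : Submodule F (Fin (n + 1) → F)) (ρ₁ ρ₂ ρ₃ : Fin (n + 1) → ℕ),
  Function.Injective ρ₁ → Function.Injective ρ₂ → Function.Injective ρ₃ →
  (∀ u ∈ U, ∀ v ∈ V, ∀ w ∈ W, ∑ a, ∑ b, ∑ c, u a * v b * w c * N a b c = 0) →
  2 * n + 3 ≤ Module.finrank F U + Module.finrank F V + Module.finrank F W →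
  (∀ i : Fin n, N i.succ i.succ i.succ ≠ 0 ∧ ∀ a b c, ρ₁ i.succ ≤ ρ₁ a → ρ₂ i.succ ≤ ρ₂ b →
    ρ₃ i.succ ≤ ρ₃ c → (a, b, c) ≠ (i.succ, i.succ, i.succ) → N a b c = 0) →
  Ld ρ₁ U 0 ∧ Ld ρ₂ V 0 ∧ Ld ρ₃ W 0 ∧ ∀ i : Fin n,
    (¬ Ld ρ₁ U i.succ ∧ Ld ρ₂ V i.succ ∧ Ld ρ₃ W i.succ) ∨
    (Ld ρ₁ U i.succ ∧ ¬ Ld ρ₂ V i.succ ∧ Ld ρ₃ W i.succ) ∨
    (Ld ρ₁ U i.succ ∧ Ld ρ₂ V i.succ ∧ ¬ Ld ρ₃ W i.succ)

/-- **ZB (diagonal interior).** `N` is a tensor on `{0, …, n}³` whose restriction to `{1, …, n}³` is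
diagonal with nonzero diagonal `κ`.  If its slice rank is at most `n` then there are a partition
`τ` of `{1, …, n}` into three classes and vectors `μ, ν, ω` supported by the three classes such
that the form `N` vanishes on the product of the spaces
`U = ⟨e₀ + μ, e_i (τ i ≠ 0)⟩`, `V = ⟨e₀ + ν, e_j (τ j ≠ 1)⟩`, `W = ⟨e₀ + ω, e_k (τ k ≠ 2)⟩`.

Proof (from `S_ct`).  Let `U, V, W` be the common kernels of the functionals `a_i`, `b_i`, `c_i` of a
slice rank decomposition with `p + q + r ≤ n`: `finrank U ≥ n + 1 - p` etc., and the form vanishes on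
`U × V × W`.  `S_ct` applies to all orders `ρ` with `ρ 0` minimal such that two of the three orders
are opposite on `{1, …, n}` (then no `(j, j, j)` is above `(i, i, i)`).  Take `ρ₂ = ` ascending,
`ρ₃ = ` `0` first, then descending, `ρ₁` arbitrary with `0` first: the set of leading positions of `U`
does not depend on `ρ₁`.  So if `i.succ` is a leading position then (take `ρ₁` with `i.succ` last)
`e_i ∈ U`; if `i.succ` is not a leading position and `u ∈ U`, `u 0 = 0`, then `u i.succ = 0` (subtract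
the multiples of the `e_j ∈ U`, the rest would have a leading position which is not one); and there
is `u⁰ ∈ U` with `u⁰ 0 = 1`, which may be changed so that its other entries at the leading positions
vanish.  The same for `V` (with `ρ₁` ascending, `ρ₃` descending, `ρ₂` arbitrary) and `W`.  `τ i` says
which of the three spaces does not have the leading position `i.succ`.  The ten conditions say that
the form vanishes at `(u⁰, e_j, e_k)`, …, `(e_i, v⁰, w⁰)`, …, `(u⁰, v⁰, w⁰)`; note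
`ν i * ω i = 0` etc. -/
def S_zb : Prop := ∀ (F : Type u) [Field F] (n : ℕ) (N : Fin (n + 1) → Fin (n + 1) → Fin (n + 1) → F)
  (κ : Fin n → F), (∀ i, κ i ≠ 0) →
  (∀ i j k : Fin n, N i.succ j.succ k.succ = if i = j ∧ j = k then κ i else 0) →
  SL N (n + 1) →
  ∃ (τ : Fin n → Fin 3) (μ ν ω : Fin n → F), (∀ i, τ i ≠ 0 → μ i = 0) ∧ (∀ i, τ i ≠ 1 → ν i = 0) ∧
    (∀ i, τ i ≠ 2 → ω i = 0) ∧
    (∀ j k, τ j ≠ 1 → τ k ≠ 2 → N 0 j.succ k.succ + (if j = k then κ j * μ j else 0) = 0) ∧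
    (∀ i k, τ i ≠ 0 → τ k ≠ 2 → N i.succ 0 k.succ + (if i = k then κ i * ν i else 0) = 0) ∧
    (∀ i j, τ i ≠ 0 → τ j ≠ 1 → N i.succ j.succ 0 + (if i = j then κ i * ω i else 0) = 0) ∧
    (∀ i, τ i ≠ 0 → N i.succ 0 0 + ∑ k, ω k * N i.succ 0 k.succ +
      ∑ j, ν j * N i.succ j.succ 0 = 0) ∧
    (∀ j, τ j ≠ 1 → N 0 j.succ 0 + ∑ k, ω k * N 0 j.succ k.succ +
      ∑ i, μ i * N i.succ j.succ 0 = 0) ∧
    (∀ k, τ k ≠ 2 → N 0 0 k.succ + ∑ j, ν j * N 0 j.succ k.succ +
      ∑ i, μ i * N i.succ 0 k.succ = 0) ∧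
    (N 0 0 0 + ∑ i, μ i * N i.succ 0 0 + ∑ j, ν j * N 0 j.succ 0 + ∑ k, ω k * N 0 0 k.succ +
      ∑ j, ∑ k, ν j * ω k * N 0 j.succ k.succ + ∑ i, ∑ k, μ i * ω k * N i.succ 0 k.succ +
      ∑ i, ∑ j, μ i * ν j * N i.succ j.succ 0 = 0)

/-- **TR (triangular interior).** `N` is a tensor on `{0, …, n}³`; for `1 ≤ k ≤ j` the entry
`N i j k` (`i` arbitrary, also `i = 0`) is zero except for `i = j = k`.

Proof (from `S_ct`).  `U, V, W` as in the proof of `S_zb`.  `ρ₂ j = j` (`0` first, then ascending),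
`ρ₃ 0 = 0`, `ρ₃ k = n + 1 - k` (`0` first, then descending), `ρ₁` arbitrary (`0` need not be first).
The condition of `S_ct` holds: `ρ₂ b ≥ ρ₂ i`, `ρ₃ c ≥ ρ₃ i` mean `1 ≤ c ≤ i ≤ b`.  So the set of
leading positions of `U` does not depend on `ρ₁`: it consists of `0` and the `i.succ` which are
leading positions of both `V` (for `ρ₂`) and `W` (for `ρ₃`) or not, and `e_a ∈ U` for each leading
position `a` (take `ρ₁` with `a` last); in particular `e_0 ∈ U`.  `τ i = 0, 1, 2` says that `i.succ`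
is not a leading position of `U`, `V`, `W`. -/
def S_tr : Prop := ∀ (F : Type u) [Field F] (n : ℕ) (N : Fin (n + 1) → Fin (n + 1) → Fin (n + 1) → F)
  (κ : Fin n → F), (∀ i, κ i ≠ 0) →
  (∀ i j k : Fin n, k ≤ j → N i.succ j.succ k.succ = if i = j ∧ j = k then κ i else 0) →
  (∀ j k : Fin n, k ≤ j → N 0 j.succ k.succ = 0) →
  SL N (n + 1) →
  ∃ (τ : Fin n → Fin 3) (V W : Submodule F (Fin (n + 1) → F)),
    (∀ v ∈ V, ∀ w ∈ W, ∑ j, ∑ k, v j * w k * N 0 j k = 0) ∧
    (∀ i, τ i ≠ 0 → ∀ v ∈ V, ∀ w ∈ W, ∑ j, ∑ k, v j * w k * N i.succ j k = 0) ∧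
    (∃ v ∈ V, v 0 ≠ 0) ∧ (∃ w ∈ W, w 0 ≠ 0) ∧
    (∀ j : Fin n, τ j ≠ 1 → ∃ v ∈ V, v 0 = 0 ∧ v j.succ = 1 ∧ ∀ j' < j, v j'.succ = 0) ∧
    (∀ j : Fin n, τ j = 1 → ∀ v ∈ V, v 0 = 0 → (∀ j' < j, v j'.succ = 0) → v j.succ = 0) ∧
    (∀ k : Fin n, τ k ≠ 2 → ∃ w ∈ W, w 0 = 0 ∧ w k.succ = 1 ∧ ∀ k' > k, w k'.succ = 0) ∧
    (∀ k : Fin n, τ k = 2 → ∀ w ∈ W, w 0 = 0 → (∀ k' > k, w k'.succ = 0) → w k.succ = 0)

/-! ## Part 4: full minors of order type tensors -/

/-- **DF (differences).** Passing to linear combinations in the three directions.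

Proof.  Three applications of the one-dimensional case; in a decomposition replace `a l x` by
`∑ x, p i x * a l x` etc. -/
def S_df : Prop := ∀ (F : Type u) [Field F] (m : ℕ) (T : Fin m → Fin m → Fin m → F)
  (p q r : Fin m → Fin m → F) (k : ℕ), SL T k →
  SL (fun i j l => ∑ x, ∑ y, ∑ z, p i x * q j y * r l z * T x y z) k

/-- **WA.**

Proof (from `S_tr`, `S_df`).  Positions (integers) in the order
`z₀ < x₁ < y₁ < z₁ < x₂ < y₂ < z₂ < … < xₙ < yₙ < zₙ < x₀ < y₀`; these are the rows of the minor (it has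
size `n + 1`; index `0` gives `x₀, y₀, z₀`).  New rows (`S_df`): in the first direction
`f i = x_i - x_{i+1}` (`1 ≤ i < n`), `f n = x_n - x₀`, and
`x₀' = x₀ - (a₃ / (P - R)) ∑ f i = x₀ - (a₃ / (P - R)) (x₁ - x₀)` with `a₃ = a + R`; in the second direction
`g j = y_j - y_{j+1}` (`1 ≤ j < n`), `g n = y_n - y₀`, and `y₀`; in the third direction
`h k = z_k - z_{k-1}` (`1 ≤ k ≤ n`) and `z₀`.  The new tensor `N` on `{0, …, n}³` (index `0`: `x₀', y₀, z₀`;
index `i`: `f i, g i, h i`) is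
`T (f i, g j, h k) = (P - R) [i = j = k] - P [k = i, j = i - 1] + R [j = i, k = i + 1]`,
`T (f i, y₀, h k) = b ([k = i] - [k = i + 1])`, `T (f i, g j, z₀) = c ([j = i] - [j = i - 1])`,
`T (f i, y₀, z₀) = 0`; `T (x₀', g j, h k) = 0`, `T (x₀', y₀, h k) = g₁ [k = 1]`, `T (x₀', g j, z₀) = g₂ [j = n]`,
`T (x₀', y₀, z₀) = e + c`, where `g₁ = - (a + R) b / (P - R)`, `g₂ = - (a + P) c / (P - R)`.
(Compute first `T (f i, y, z)`: it is `b [z = z_i] + c [y = y_i] + P [y = y_i, z > y_i] - R [z = z_i, y < z_i]`,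
and `T (x₀, y, z) = e + (a + R) [y < z] + c [y = y₀]`.)
If the minor has slice rank at most `n`, so has `N`, and `S_tr` with `κ = P - R` gives `τ, V, W`.
Write `A = e + c ≠ 0`.  For `v ∈ V, w ∈ W`, `τ i ≠ 0` (with `v_0` in the place of `v_{i-1}` for `i = 1` and
`w_{n+1}` replaced by zero; the index `0` is written separately):
(0) `A v(0) w(0) + g₁ v(0) w(1) + g₂ v(n) w(0) = 0`,
(i) `(P - R) v_i w_i - P v_{i-1} w_i + R v_i w_{i+1} + b v(0) (w_i - w_{i+1}) + c w(0) (v_i - v_{i-1}) = 0`.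
Lemma A: if `c ≠ 0`, `ν ≠ 0` it is impossible that `v(n) = ν v(0)` for all `v ∈ V`.  Descending induction:
`v_i = ν v(0)` for all `v ∈ V`; then `τ i = 1` (otherwise the leading vector `v(0) = 0, v_i = 1` contradicts),
so (i) holds and `W` has a vector with `w(0) = 0`, `w_i = 1`, `w_{k} = 0` for `k > i`, which gives
(R1) `(P - R) v_i - P v_{i-1} + b v(0) = 0`; subtracting `w_i` times (R1) from (i):
(R2) `w_{i+1} (R v_i - b v(0)) + c w(0) (v_i - v_{i-1}) = 0` for all `w ∈ W`.  For `i = n` (R2) (with `w(0) ≠ 0`)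
gives `v_{n-1} = v_n` and then (R1) gives `b = R ν` (for `n ≥ 2`; `v(0) ≠ 0` exists); for `i < n` (R2)
gives `v_{i-1} = v_i`; and for `i = 1` (where `v_{i-1}` is replaced by `0`) it gives `v_1 = 0`, a
contradiction.
Lemma B: if `b ≠ 0`, `ω ≠ 0` it is impossible that `w(1) = ω w(0)` for all `w ∈ W`.  Ascending induction,
`w_i = ω w(0)`, `τ i = 2`, the vector `v ∈ V` with `v(0) = 0, v_i = 1, v_j = 0` for `j < i` gives
(S1) `(P - R) w_i + R w_{i+1} + c w(0) = 0`, and
(S2) `- v_{i-1} (P w_i + c w(0)) + b v(0) (w_i - w_{i+1}) = 0` for all `v ∈ V`.  `i = 1`: `w_2 = w_1` and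
`P ω + c = 0`; `i > 1`: `w_{i+1} = w_i`; `i = n`: `w_n = 0`, a contradiction.
Now (0): if `g₁ = g₂ = 0` contradiction.  If `g₁ = 0 ≠ g₂`, `v(n) = ν v(0)` with `ν = - A / g₂`: Lemma A.
If `g₂ = 0 ≠ g₁`: Lemma B.  If both are not zero: `v(0) = 0` implies `v(n) = 0` and `w(0) = 0` implies
`w(1) = 0`, so `v(n) = ν v(0)`, `w(1) = ω w(0)` for some `ν, ω`, not both zero because of (0): Lemma A or
B. -/
def S_wa : Prop := ∀ (F : Type u) [Field F] (e a b c P R : F) (T : ℤ → ℤ → ℤ → F),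
  AgI T e a b c P R → P ≠ 0 → P ≠ R → e + c ≠ 0 → ∀ n : ℕ, 1 ≤ n → FM T (n + 1)

/-- **WB.**  (`T = p` for `x < y < z`, `T = q` for `z < y < x`, `T = 0` for the four other orders.)

Proof (from `S_zb`, `S_df`).  Positions `x₁ < y₁ < z₁ < x₂ < … < x_l < y_l < z_l`, `l = n + 1 ≥ 2`.  New rows:
`f i = x_i - x_{i+1}` (`i < l`), `x_l' = x_l + (q / (p + q)) ∑_{2 ≤ j < l} f j = x_l + (q / (p + q)) (x₂ - x_l)`;
`y_j`; `h k = z_k - z_{k-1}` (`k ≥ 2`), `z₁`.  Index `0` of `N` is `(f 1, y₁, z₁)`, index `i ≥ 1` is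
`f (i + 1)` for `i < n`, `x_l'` for `i = n`; `y_{j+1}`; `h (k + 1)`.
`T (f i, y_j, z_k) = [i = j] (- q + (p + q) [i ≤ k])`, `T (x_l, y_j, z_k) = q - q [j ≤ k]` for `j < l` and
`p [k = l]` for `j = l`.  So the interior of `N` is diagonal with entries `p + q` for `i < n` and `p` for
`i = n`; `N 0 j k = N i 0 k = 0`, `N 0 0 k = N 0 j 0 = N i 0 0 = 0`, `N i j 0 = - q [i = j]` for `i < n`, and
`N n j 0 = q p / (p + q)` for `j < n`, `0` for `j = n`; `N 0 0 0 = p`.  `S_zb` gives `μ = 0`, `ν = 0` and then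
`p = 0`, a contradiction. -/
def S_wb : Prop := ∀ (F : Type u) [Field F] (p q : F) (T : ℤ → ℤ → ℤ → F),
  AgI T q (-q) 0 (-q) (p + q) 0 → p ≠ 0 → p + q ≠ 0 → ∀ n : ℕ, 1 ≤ n → FM T (n + 1)

/-- **NF (normal form).**

Proof (from `S_zb`; the constant is `κ`).  The conditions are: (A) `a [j < k] + (a' + κ μ_j) [j = k] = 0`
for `τ j ≠ 1, τ k ≠ 2`; (B) `ν_i = - b / κ` for `τ i = 1`; (C) `ω_i = - c / κ` for `τ i = 2`;
(D) `ω_i b + ν_i c = 0` for `τ i ≠ 0`; (E) `- a + a ∑_{k > j} ω_k + a' ω_j + c μ_j = 0` for `τ j ≠ 1`;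
(F) `a ∑_{j < k} ν_j + a' ν_k + b μ_k = 0` for `τ k ≠ 2`;
(G) `v - a ∑ ν_j + a ∑_{j < k} ν_j ω_k = 0` (the sums over equal indices vanish, the supports are disjoint).
If `a = 0`, (G) says `v = 0`.  Let `a ≠ 0`.  (A): there are no `j < k` with `τ j ∈ {0, 2}`, `τ k ∈ {0, 1}`; in
particular `τ = 0` at most once, so (as `n ≥ 2`) (D) gives `b c = 0`.  If `b ≠ 0` then `c = 0`, `ω = 0`, (E)
shows that `τ = 1` everywhere, and (F) for the first two indices gives `a' ν = 0`, `a ν + a' ν = 0` with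
`ν = - b / κ`, a contradiction.  So `b = 0`, `ν = 0`, and (G) says `v = 0`. -/
def S_nf : Prop := ∀ (F : Type u) [Field F] (n : ℕ) (N : Fin (n + 1) → Fin (n + 1) → Fin (n + 1) → F)
  (κ a b c a' v : F), 2 ≤ n → κ ≠ 0 →
  (∀ i j k : Fin n, N i.succ j.succ k.succ = if i = j ∧ j = k then κ else 0) →
  (∀ j k : Fin n, N 0 j.succ k.succ = (if j < k then a else 0) + (if j = k then a' else 0)) →
  (∀ i k : Fin n, N i.succ 0 k.succ = if i = k then b else 0) →
  (∀ i j : Fin n, N i.succ j.succ 0 = if i = j then c else 0) →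
  (∀ i : Fin n, N i.succ 0 0 = 0) → (∀ j : Fin n, N 0 j.succ 0 = - a) →
  (∀ k : Fin n, N 0 0 k.succ = 0) → N 0 0 0 = v → SL N (n + 1) → v = 0

/-- **AL.**

Proof (from `S_zb`, `S_nf`, `S_df`; symmetries in `Pool.Agent.H402.FF.Sym`).  Let the minor not be full
(slice rank at most `n`) in all of the following configurations.
Stages `s_1 < … < s_n`, `y_m = z_m = s_m`, `x_m` just before `s_m`, `x₀` after all of them (the `x`'s are different
from all `y`'s and `z`'s); new rows `f i = x_i - x_{i+1}`, `f n = x_n - x₀`, `x₀`; `y_j - y₀`, `y₀`;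
`z_k - z₀`, `z₀`.  `T (f i, y, z) = b [z = s_i] + c [y = s_i] + α [y = z = s_i]` for `y, z` among the `s`'s.
(1) `y₀ < z₀ <` everything else: `N` is as in `S_nf` with `κ = α`, `a, b, c, a'`, `v = e + a`.  So `e + a = 0`.
(2) the same with `z₀ < y₀`; by the symmetry exchanging `y` and `z` (parameters
`e + a, - a, c, b, a' - a, c', b', α, γ, β, d`, or see directly: exchange the two directions of `N`) this
is `S_nf` with `- a`, `v = (e + a) + (- a) = e`.  So `e = 0` and `a = 0`.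
(3) if `b ≠ 0`: `y₀` before, `z₀` after everything (also after `x₀`): interior `α [i = j = k]`,
`N 0 j k = a' [j = k]`, `N i 0 k = b [i = k]`, `N i j 0 = c [i = j]`, `N 0 0 k = - b`,
`N 0 j 0 = N i 0 0 = 0`, `N 0 0 0 = b`.  `S_zb`: `b (1 - ∑ ω_k) = 0`, so there is `k` with `τ k = 2`,
`ω_k ≠ 0`; the condition for `N k 0 0` says `ω_k b = 0`, a contradiction.
(4) if `c ≠ 0`: `y₀` after, `z₀` before everything, symmetric (or by the symmetry exchanging `y, z`).
(5) `a = b = c = e = 0`, `a' + α ≠ 0`: stages `s_1, …, s_{n+1}`, `x_i` just before `s_i`,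
`y_i = z_i = s_i`; rows `f i = x_i - x_{i+1}` (`i ≤ n`), `x_{n+1}`, `y_j`, `z_k`; index `0` is
`(x_{n+1}, y_{n+1}, z_{n+1})`: interior `α [i = j = k]`, `N 0 j k = a' [j = k]`, `N 0 0 0 = a' + α`, the
other entries are zero; `S_zb` gives `a' + α = 0`.
(6) `a = b = c = e = 0`, `a' + α = 0`: stages `s_1, …, s_{n+1}`, `x_i` just after `s_i`; rows
`x_i - x_{i-1}` (`i ≥ 2`), `x_1`; the new tensor is `- α` times the diagonal tensor. -/
def S_al : Prop := ∀ (F : Type u) [Field F] (e a b c a' b' c' α β γ d : F), α ≠ 0 →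
  ∀ n : ℕ, 2 ≤ n → FM (TII e a b c a' b' c' α β γ d) (n + 1)

/-- **DI.**

Proof (from `S_zb`, `S_nf`, `S_df`; symmetries in `Pool.Agent.H402.FF.Sym`).  Suppose that no minor is
full.  Stages `x_i = y_i = z_i = s_i`, `i = 1, …, n`, and `x₀, y₀, z₀` before them; rows `x_i - x₀, x₀`,
`y_j - y₀, y₀`, `z_k - z₀, z₀`.
(1) `a ≠ 0` and `b ≠ 0`: `y₀ < z₀ < x₀`.  `N i j k = d [i = j = k]`, `N 0 j k = a [j < k] + a' [j = k]`,
`N i 0 k = b ([i < k] - 1) + b' [i = k]`, `N i j 0 = c ([i < j] - 1) + c' [i = j]`, `N i 0 0 = 0`,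
`N 0 j 0 = c - a`, `N 0 0 k = b`, `N 0 0 0 = e + a`.  By `S_zb` there are no `p < q` with `τ p ∈ {0, 2}`,
`τ q ∈ {0, 1}`, and no `p < q` with `τ p ∈ {0, 1}`, `τ q ∈ {1, 2}`; so (`n ≥ 3`) `τ = 2` everywhere,
`μ = ν = 0`; the condition for `N i j 0`, `i > j`, gives `c = 0`, and for `i = j` it gives
`ω_i = - c' / d =: w`; the condition for `N 0 j 0` is `- a + a w (n - j) + a' w = 0`; `j = n` and `j = n - 1`
give `a w = 0` and then `a = 0`, a contradiction.
(2) `a ≠ 0`, `c ≠ 0`: (1) for the tensor with `y, z` exchanged (parameters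
`e + a, - a, c, b, a' - a, c', b'`).  `b ≠ 0`, `c ≠ 0`: (2) for the tensor with `x, y` exchanged
(`e + c, b, a, - c, b', a', c' - c`).
(3) `a ≠ 0`, `b = c = 0`: `y₀ < z₀ < x₀`: `S_nf` with `κ = d`, `a, b', c', a'`, `v = e + a`; so `e + a = 0`.  The
same for the tensor with `y, z` exchanged: `e = 0`, so `a = 0`, a contradiction.  Only `b ≠ 0`: exchange
`x, y`; only `c ≠ 0`: exchange `y, z`, then `x, y`.
(4) `a = b = c = 0`, `e ≠ 0`: `S_nf` with `a = 0`, `v = e`.
(5) `a = b = c = e = 0`, `a' ≠ 0`: `y₀ = z₀` before, `x₀` before and different from them: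
`N 0 j k = a' (1 + [j = k])`, `N i 0 k = b' [i = k]`, `N i j 0 = c' [i = j]`, `N 0 j 0 = N 0 0 k = - a'`,
`N i 0 0 = 0`, `N 0 0 0 = a'`.  `S_zb`: there are no `j ≠ k` with `τ j ∈ {0, 2}`, `τ k ∈ {0, 1}`; so (`n ≥ 2`)
`τ = 1` everywhere or `τ = 2` everywhere.  If `τ = 1`: `ω = μ = 0`, `a' (1 - ∑ ν) = 0` and, for `N 0 0 k`,
`a' (- 1 + ∑ ν + ν_k) = 0`, so `ν = 0`, a contradiction.  `τ = 2`: the same.  `b' ≠ 0`, `c' ≠ 0`: by symmetry.
(6) all zero: `T = d [x = y = z]`, rows `x_i = y_i = z_i = s_i`, `i = 0, …, n`: diagonal. -/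
def S_di : Prop := ∀ (F : Type u) [Field F] (e a b c a' b' c' d : F), d ≠ 0 →
  ∀ n : ℕ, 3 ≤ n → FM (TII e a b c a' b' c' 0 0 0 d) (n + 1)

end Pool.Agent.H402.FF
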