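import Pool.Agent.H402.FF.Sym
import Pool.Agent.H402.FR.Two

/-!
# Project FF (helper402): from families of partitions to the slice rank of order three
-/

set_option autoImplicit false

open Finset

namespace Pool.Agent.H402.FF

open Pool.Agent.H402.FR (RankLT parts_eq ne_compl split_prod)

variable {F : Type*} [Field F] {d : ℕ} {Q : Fin d → Type*}

/-- the block of `j` -/
def blk (c : Fin d → Fin 3) (j : Fin 3) : Finset (Fin d) := univ.filter fun α => c α = j

theorem mem_blk {c : Fin d → Fin 3} {j : Fin 3} {α : Fin d} : α ∈ blk c j ↔ c α = j := by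
  simp [blk]

/-- glue three points along the blocks -/
def mix3 (c : Fin d → Fin 3) (x y z : ∀ α, Q α) : ∀ α, Q α := fun α =>
  if c α = 0 then x α else if c α = 1 then y α else z α

theorem mix3_self (c : Fin d → Fin 3) (x : ∀ α, Q α) : mix3 c x x x = x := by
  funext α
  simp only [mix3]
  split_ifs <;> rfl

theorem mix3_0 {c : Fin d → Fin 3} {x y z : ∀ α, Q α} {α : Fin d} (h : c α = 0) :
    mix3 c x y z α = x α := if_pos h

theorem mix3_1 {c : Fin d → Fin 3} {x y z : ∀ α, Q α} {α : Fin d} (h : c α = 1) :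
    mix3 c x y z α = y α := by
  simp [mix3, h]

theorem mix3_2 {c : Fin d → Fin 3} {x y z : ∀ α, Q α} {α : Fin d} (h : c α = 2) :
    mix3 c x y z α = z α := by
  simp [mix3, h]

/-- `R` is a slice family for the blocks of `c`: it contains the three bipartitions
`B j = {block of j, complement}` and each member of `R` refines one of them. -/
def SliceFamily (R : Set (Finpartition (univ : Finset (Fin d)))) (c : Fin d → Fin 3)
    (B : Fin 3 → Finpartition (univ : Finset (Fin d))) : Prop :=
  (∀ j, B j ∈ R ∧ blk c j ∈ (B j).parts ∧ (blk c j)ᶜ ∈ (B j).parts) ∧ ∀ P ∈ R, ∃ j, P ≤ B j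

theorem SL_of_rankLT {R : Set (Finpartition (univ : Finset (Fin d)))} {c : Fin d → Fin 3}
    {B : Fin 3 → Finpartition (univ : Finset (Fin d))} (hR : SliceFamily R c B)
    {T : (∀ α, Q α) → F} {X : ∀ α, Finset (Q α)} {k : ℕ} (h : RankLT R T X k)
    {ι : Type*} (px py pz : ι → ∀ α, Q α) (hx : ∀ i α, c α = 0 → px i α ∈ X α)
    (hy : ∀ i α, c α = 1 → py i α ∈ X α) (hz : ∀ i α, c α = 2 → pz i α ∈ X α) :
    SL (fun i j l => T (mix3 c (px i) (py j) (pz l))) k := by
  classical
  obtain ⟨r, hr, P, hP, f, hf, H⟩ := h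
  by_cases hne : Nonempty ι
  swap
  · exact ⟨0, 0, 0, by omega, Fin.elim0, Fin.elim0, Fin.elim0, Fin.elim0, Fin.elim0, Fin.elim0,
      fun x y z => absurd ⟨x⟩ hne⟩
  obtain ⟨i₀⟩ := hne
  let w := px i₀
  choose α hα using fun i => hR.2 (P i) (hP i)
  have hsplit := fun i => split_prod (hR.1 (α i)).2.1 (hR.1 (α i)).2.2 (hα i) (f i) (hf i)
  choose a b ha hb hab using hsplit
  have hcard : Fintype.card {i // α i = 0} + Fintype.card {i // α i = 1}
      + Fintype.card {i // α i = 2} = r := by
    rw [Fintype.card_subtype, Fintype.card_subtype, Fintype.card_subtype]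
    have h1 := Finset.card_eq_sum_card_fiberwise (f := α) (s := univ) (t := univ)
      (fun _ _ => Finset.mem_univ _)
    rw [Fin.sum_univ_three] at h1
    rw [← h1]
    simp
  let e0 := (Fintype.equivFin {i // α i = 0}).symm
  let e1 := (Fintype.equivFin {i // α i = 1}).symm
  let e2 := (Fintype.equivFin {i // α i = 2}).symm
  refine ⟨_, _, _, by rw [hcard]; exact hr,
    fun i x => a (e0 i) (mix3 c (px x) w w), fun i y z => b (e0 i) (mix3 c w (py y) (pz z)),
    fun i y => a (e1 i) (mix3 c w (py y) w), fun i x z => b (e1 i) (mix3 c (px x) w (pz z)),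
    fun i z => a (e2 i) (mix3 c w w (pz z)), fun i x y => b (e2 i) (mix3 c (px x) (py y) w),
    fun x y z => ?_⟩
  simp only
  have hmem : ∀ β, mix3 c (px x) (py y) (pz z) β ∈ X β := by
    intro β
    have hc : c β = 0 ∨ c β = 1 ∨ c β = 2 := by omega
    rcases hc with hc | hc | hc
    · rw [mix3_0 hc]
      exact hx x β hc
    · rw [mix3_1 hc]
      exact hy y β hc
    · rw [mix3_2 hc]
      exact hz z β hc
  rw [H _ hmem]
  have hsum : ∑ i, ∏ S ∈ (P i).parts, f i S (mix3 c (px x) (py y) (pz z))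
      = ∑ i : {i // α i = 0}, ∏ S ∈ (P i).parts, f i S (mix3 c (px x) (py y) (pz z))
      + ∑ i : {i // α i = 1}, ∏ S ∈ (P i).parts, f i S (mix3 c (px x) (py y) (pz z))
      + ∑ i : {i // α i = 2}, ∏ S ∈ (P i).parts, f i S (mix3 c (px x) (py y) (pz z)) := by
    have key : ∀ e : Fin 3, ∑ i : {i // α i = e}, ∏ S ∈ (P i).parts,
        f i S (mix3 c (px x) (py y) (pz z))
        = ∑ i with α i = e, ∏ S ∈ (P i).parts, f i S (mix3 c (px x) (py y) (pz z)) := by
      intro e
      rw [← Finset.sum_subtype (univ.filter fun i => α i = e) (by simp)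
        (fun i => ∏ S ∈ (P i).parts, f i S (mix3 c (px x) (py y) (pz z)))]
    rw [key, key, key, ← Finset.sum_fiberwise univ α, Fin.sum_univ_three]
  rw [hsum]
  congr 1
  · congr 1
    · rw [← Equiv.sum_comp e0]
      refine Finset.sum_congr rfl fun i _ => ?_
      rw [hab]
      congr 1
      · refine ha _ _ _ fun β hβ => ?_
        rw [(e0 i).2, mem_blk] at hβ
        rw [mix3_0 hβ, mix3_0 hβ]
      · refine hb _ _ _ fun β hβ => ?_
        rw [(e0 i).2, mem_blk] at hβ
        simp only [mix3, if_neg hβ]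
    · rw [← Equiv.sum_comp e1]
      refine Finset.sum_congr rfl fun i _ => ?_
      rw [hab]
      congr 1
      · refine ha _ _ _ fun β hβ => ?_
        rw [(e1 i).2, mem_blk] at hβ
        rw [mix3_1 hβ, mix3_1 hβ]
      · refine hb _ _ _ fun β hβ => ?_
        rw [(e1 i).2, mem_blk] at hβ
        simp only [mix3, if_neg hβ]
  · rw [← Equiv.sum_comp e2]
    refine Finset.sum_congr rfl fun i _ => ?_
    rw [hab]
    congr 1
    · refine ha _ _ _ fun β hβ => ?_
      rw [(e2 i).2, mem_blk] at hβ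
      rw [mix3_2 hβ, mix3_2 hβ]
    · refine hb _ _ _ fun β hβ => ?_
      rw [(e2 i).2, mem_blk] at hβ
      have hc : c β = 0 ∨ c β = 1 := by omega
      rcases hc with hc | hc
      · rw [mix3_0 hc, mix3_0 hc]
      · rw [mix3_1 hc, mix3_1 hc]

theorem rankLT_of_SL [∀ α, Fintype (Q α)] {R : Set (Finpartition (univ : Finset (Fin d)))}
    {c : Fin d → Fin 3} {B : Fin 3 → Finpartition (univ : Finset (Fin d))}
    (hR : SliceFamily R c B) {T : (∀ α, Q α) → F} {k : ℕ}
    (h : SL (fun x y z => T (mix3 c x y z)) k) : RankLT R T (fun _ => univ) k := by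
  classical
  obtain ⟨p, q, r, hpqr, a, g, b, h, u, e, H⟩ := h
  by_cases hne : Nonempty (∀ α, Q α)
  swap
  · exact ⟨0, by omega, Fin.elim0, fun i => i.elim0, Fin.elim0, fun i => i.elim0,
      fun x _ => absurd ⟨x⟩ hne⟩
  obtain ⟨w⟩ := hne
  refine RankLT.of_fintype (ι := Fin p ⊕ Fin q ⊕ Fin r) (by simpa [add_assoc] using hpqr)
    (Sum.elim (fun _ => B 0) (Sum.elim (fun _ => B 1) (fun _ => B 2)))
    (by rintro (i | i | i) <;> exact (hR.1 _).1)
    (Sum.elim
      (fun i S x => if S = blk c 0 then a i (mix3 c x w w)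
        else if S = (blk c 0)ᶜ then g i (mix3 c w x w) (mix3 c w w x) else 0)
      (Sum.elim
        (fun i S x => if S = blk c 1 then b i (mix3 c w x w)
          else if S = (blk c 1)ᶜ then h i (mix3 c x w w) (mix3 c w w x) else 0)
        (fun i S x => if S = blk c 2 then u i (mix3 c w w x)
          else if S = (blk c 2)ᶜ then e i (mix3 c x w w) (mix3 c w x w) else 0)))
    ?_ ?_
  · have k0 : ∀ {S : Finset (Fin d)} {x y : ∀ α, Q α}, (∀ α ∈ S, x α = y α) →
        (∀ α, c α = 0 → α ∈ S) → mix3 c x w w = mix3 c y w w := by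
      intro S x y hxy hS
      funext α
      have hc : c α = 0 ∨ c α = 1 ∨ c α = 2 := by omega
      rcases hc with hc | hc | hc
      · rw [mix3_0 hc, mix3_0 hc, hxy α (hS α hc)]
      · rw [mix3_1 hc, mix3_1 hc]
      · rw [mix3_2 hc, mix3_2 hc]
    have k1 : ∀ {S : Finset (Fin d)} {x y : ∀ α, Q α}, (∀ α ∈ S, x α = y α) →
        (∀ α, c α = 1 → α ∈ S) → mix3 c w x w = mix3 c w y w := by
      intro S x y hxy hS
      funext α
      have hc : c α = 0 ∨ c α = 1 ∨ c α = 2 := by omega
      rcases hc with hc | hc | hc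
      · rw [mix3_0 hc, mix3_0 hc]
      · rw [mix3_1 hc, mix3_1 hc, hxy α (hS α hc)]
      · rw [mix3_2 hc, mix3_2 hc]
    have k2 : ∀ {S : Finset (Fin d)} {x y : ∀ α, Q α}, (∀ α ∈ S, x α = y α) →
        (∀ α, c α = 2 → α ∈ S) → mix3 c w w x = mix3 c w w y := by
      intro S x y hxy hS
      funext α
      have hc : c α = 0 ∨ c α = 1 ∨ c α = 2 := by omega
      rcases hc with hc | hc | hc
      · rw [mix3_0 hc, mix3_0 hc]
      · rw [mix3_1 hc, mix3_1 hc]
      · rw [mix3_2 hc, mix3_2 hc, hxy α (hS α hc)]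
    have n01 : ∀ α, c α = 1 → α ∈ (blk c 0)ᶜ := fun α h => by
      rw [Finset.mem_compl, mem_blk]; omega
    have n02 : ∀ α, c α = 2 → α ∈ (blk c 0)ᶜ := fun α h => by
      rw [Finset.mem_compl, mem_blk]; omega
    have n10 : ∀ α, c α = 0 → α ∈ (blk c 1)ᶜ := fun α h => by
      rw [Finset.mem_compl, mem_blk]; omega
    have n12 : ∀ α, c α = 2 → α ∈ (blk c 1)ᶜ := fun α h => by
      rw [Finset.mem_compl, mem_blk]; omega
    have n20 : ∀ α, c α = 0 → α ∈ (blk c 2)ᶜ := fun α h => by
      rw [Finset.mem_compl, mem_blk]; omega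
    have n21 : ∀ α, c α = 1 → α ∈ (blk c 2)ᶜ := fun α h => by
      rw [Finset.mem_compl, mem_blk]; omega
    rintro (i | i | i) S x y hxy
    · simp only [Sum.elim_inl]
      split_ifs with h1 h2
      · rw [k0 hxy fun α hα => by rw [h1]; exact mem_blk.2 hα]
      · rw [k1 hxy (by rw [h2]; exact n01), k2 hxy (by rw [h2]; exact n02)]
      · rfl
    · simp only [Sum.elim_inl, Sum.elim_inr]
      split_ifs with h1 h2
      · rw [k1 hxy fun α hα => by rw [h1]; exact mem_blk.2 hα]
      · rw [k0 hxy (by rw [h2]; exact n10), k2 hxy (by rw [h2]; exact n12)]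
      · rfl
    · simp only [Sum.elim_inr]
      split_ifs with h1 h2
      · rw [k2 hxy fun α hα => by rw [h1]; exact mem_blk.2 hα]
      · rw [k0 hxy (by rw [h2]; exact n20), k1 hxy (by rw [h2]; exact n21)]
      · rfl
  · intro x _
    have e0 := H (mix3 c x w w) (mix3 c w x w) (mix3 c w w x)
    have e1 : mix3 c (mix3 c x w w) (mix3 c w x w) (mix3 c w w x) = x := by
      funext α
      have hc : c α = 0 ∨ c α = 1 ∨ c α = 2 := by omega
      rcases hc with hc | hc | hc
      · rw [mix3_0 hc, mix3_0 hc]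
      · rw [mix3_1 hc, mix3_1 hc]
      · rw [mix3_2 hc, mix3_2 hc]
    simp only at e0
    rw [e1] at e0
    have hp : ∀ (j : Fin 3) (A A' : F),
        ∏ S ∈ (B j).parts, (if S = blk c j then A else if S = (blk c j)ᶜ then A' else 0) =
          A * A' := by
      intro j A A'
      rw [parts_eq (hR.1 j).2.1 (hR.1 j).2.2,
        Finset.prod_pair (ne_compl (hR.1 j).2.1), if_pos rfl,
        if_neg (ne_compl (hR.1 j).2.1).symm, if_pos rfl]
    rw [e0, Fintype.sum_sum_type, Fintype.sum_sum_type, ← add_assoc]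
    congr 1
    · congr 1
      · refine Finset.sum_congr rfl fun i _ => ?_
        simp only [Sum.elim_inl]
        rw [hp]
      · refine Finset.sum_congr rfl fun i _ => ?_
        simp only [Sum.elim_inl, Sum.elim_inr]
        rw [hp]
    · refine Finset.sum_congr rfl fun i _ => ?_
      simp only [Sum.elim_inr]
      rw [hp]

/-- Full minors of the order three tensor give full minors of the tensor. -/
theorem minor_of_FM {R : Set (Finpartition (univ : Finset (Fin d)))} {c : Fin d → Fin 3}
    {B : Fin 3 → Finpartition (univ : Finset (Fin d))} (hR : SliceFamily R c B)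
    {T : (∀ α, Q α) → F} {l : ℕ} (h : FM (fun x y z => T (mix3 c x y z)) l) :
    ∃ X : ∀ α, Finset (Q α), (∀ α, (X α).card ≤ l) ∧ ¬ RankLT R T X l := by
  classical
  obtain ⟨px, py, pz, h⟩ := h
  refine ⟨fun α => if c α = 0 then univ.image (fun i => px i α) else
    if c α = 1 then univ.image (fun i => py i α) else univ.image (fun i => pz i α), fun α => ?_,
    fun h' => h (SL_of_rankLT hR h' px py pz ?_ ?_ ?_)⟩
  · simp only
    split_ifs
    · exact Finset.card_image_le.trans (by simp)
    · exact Finset.card_image_le.trans (by simp)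
    · exact Finset.card_image_le.trans (by simp)
  · intro i α hc
    simp only [hc, if_true]
    exact Finset.mem_image_of_mem (fun i => px i α) (Finset.mem_univ i)
  · intro i α hc
    simp only [hc, Fin.reduceEq, if_false, if_true]
    exact Finset.mem_image_of_mem (fun i => py i α) (Finset.mem_univ i)
  · intro i α hc
    simp only [hc, Fin.reduceEq, if_false]
    exact Finset.mem_image_of_mem (fun i => pz i α) (Finset.mem_univ i)

end Pool.Agent.H402.FF
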