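import Pool.Agent.H402.FF.Main
import Pool.Agent.H402.FF.Tr
import Pool.Agent.H402.FR.Three
import Pool.Agent.H402.FR.L2
import Pool.Agent.H177.FF_CORE
import Pool.Agent.H628.FF_PART
import Pool.Agent.H628.FF_CT
import Pool.Agent.H628.FF_TR
import Pool.Agent.H628.FF_DF
import Pool.Agent.H79.FF_ULT
import Pool.Agent.H79.FF_AL
import Pool.Agent.H872.FF_SEQ
import Pool.Agent.H872.FF_DI
import Pool.Agent.H183.FF_ZB
import Pool.Agent.H997.FF_WA
import Pool.Agent.H229.FF_WB
import Pool.Agent.H229.FF_NF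

/-!
# Project FF (helper402): tensors with boundedly many values, final form
-/

set_option autoImplicit false

open Finset

namespace Pool.Agent.H402.FF

universe u

open Pool.Agent.H402.FR (RankLT SLT)

theorem slice_bounded (l s : ℕ) (hl : 4 ≤ l) :
    ∃ G : ℕ, ∀ (F : Type u) [Field F] (n₁ n₂ n₃ : ℕ) (T : Fin n₁ → Fin n₂ → Fin n₃ → F)
      (val : Fin s → F), (∀ x y z, ∃ v, T x y z = val v) → ¬ SL T G → FM T l := by
  have zb : S_zb.{u} := Pool.Agent.H183.FF_ZB.holds Pool.Agent.H628.FF_CT.holds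
  have tr : S_tr.{u} := Pool.Agent.H628.FF_TR.holds Pool.Agent.H628.FF_CT.holds
  have df : S_df.{u} := Pool.Agent.H628.FF_DF.holds
  have nf : S_nf.{u} := Pool.Agent.H229.FF_NF.holds zb
  exact main Pool.Agent.H177.FF_CORE.holds Pool.Agent.H628.FF_PART.holds
    Pool.Agent.H79.FF_ULT.holds Pool.Agent.H872.FF_SEQ.holds
    (Pool.Agent.H997.FF_WA.holds tr df) (Pool.Agent.H229.FF_WB.holds zb df)
    (Pool.Agent.H79.FF_AL.holds zb nf df) (Pool.Agent.H872.FF_DI.holds zb nf df) l s hl

variable {d : ℕ}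

theorem SLT_of_SL {F X Y Z : Type*} [Field F] {T : X → Y → Z → F} {k : ℕ} (h : SL T k) :
    SLT Set.univ Set.univ Set.univ T k := by
  obtain ⟨p, q, r, hk, a, g, b, h, c, e, H⟩ := h
  exact ⟨p, q, r, hk, a, g, b, h, c, e, fun x _ y _ z _ => H x y z⟩

theorem SL_of_SLT {F X Y Z : Type*} [Field F] {T : X → Y → Z → F} {k : ℕ}
    (h : SLT Set.univ Set.univ Set.univ T k) : SL T k := by
  obtain ⟨p, q, r, hk, a, g, b, h, c, e, H⟩ := h
  exact ⟨p, q, r, hk, a, g, b, h, c, e,
    fun x y z => H x (Set.mem_univ x) y (Set.mem_univ y) z (Set.mem_univ z)⟩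

theorem FM_three {F X Y Z : Type*} [Field F] {T : X → Y → Z → F} (h : ¬ SL T 7) : FM T 3 := by
  by_contra hF
  apply h
  refine SL_of_SLT (Pool.Agent.H402.FR.slice_three T fun px py pz => ?_)
  by_contra hc
  apply hF
  refine ⟨px, py, pz, fun hSL => hc ?_⟩
  obtain ⟨p, q, r, hk, a, g, b, h, c, e, H⟩ := hSL
  classical
  by_cases hne : True
  · refine ⟨p, q, r, hk, fun i x => a i (Function.invFun px x),
      fun i y z => g i (Function.invFun py y) (Function.invFun pz z),
      fun i y => b i (Function.invFun py y),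
      fun i x z => h i (Function.invFun px x) (Function.invFun pz z),
      fun i z => c i (Function.invFun pz z),
      fun i x y => e i (Function.invFun px x) (Function.invFun py y), ?_⟩
    intro x hx y hy z hz
    rw [← H]
    have e1 : px (Function.invFun px x) = x := Function.invFun_eq hx
    have e2 : py (Function.invFun py y) = y := Function.invFun_eq hy
    have e3 : pz (Function.invFun pz z) = z := Function.invFun_eq hz
    show T x y z = T (px (Function.invFun px x)) (py (Function.invFun py y))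
      (pz (Function.invFun pz z))
    rw [e1, e2, e3]
  · exact absurd trivial hne

/-- The theorem for finite index types. -/
theorem slice_bounded' (l s : ℕ) (hl : 4 ≤ l) :
    ∃ G : ℕ, ∀ (F : Type u) [Field F] (X Y Z : Type) [Fintype X] [Fintype Y] [Fintype Z]
      (T : X → Y → Z → F)
      (val : Fin s → F), (∀ x y z, ∃ v, T x y z = val v) → ¬ SL T G → FM T l := by
  obtain ⟨G, hG⟩ := slice_bounded.{u} l s hl
  refine ⟨G, fun F _ X Y Z _ _ _ T val hval hT => ?_⟩
  let e1 := (Fintype.equivFin X).symm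
  let e2 := (Fintype.equivFin Y).symm
  let e3 := (Fintype.equivFin Z).symm
  refine FM.comp (f := e1) (g := e2) (h' := e3) (hG F _ _ _ (fun x y z => T (e1 x) (e2 y) (e3 z))
    val (fun x y z => hval _ _ _) fun h => hT ?_)
  have := h.comp e1.symm e2.symm e3.symm
  simpa using this

theorem three_blocks (s : ℕ) {R : Set (Finpartition (univ : Finset (Fin d)))}
    {c : Fin d → Fin 3}
    {B : Fin 3 → Finpartition (univ : Finset (Fin d))} (hR : SliceFamily R c B) :
    ∃ G : ℕ → ℕ, ∀ (𝕜 : Type u) [Field 𝕜] (n : Fin d → ℕ) (T : ((α : Fin d) → Fin (n α)) → 𝕜),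
      (Set.range T).ncard ≤ s → ∀ l : ℕ, ¬ RankLT R T (fun _ => univ) (G l) →
      ∃ X : (α : Fin d) → Finset (Fin (n α)), (∀ α, (X α).card ≤ l) ∧ ¬ RankLT R T X l := by
  classical
  have hd : 0 < d := by
    obtain ⟨a, _⟩ := Finset.nonempty_iff_ne_empty.2 ((B 0).ne_bot (hR.1 0).2.1)
    exact Fin.pos a
  have key : ∀ l : ℕ, ∃ G : ℕ, ∀ (𝕜 : Type u) [Field 𝕜] (n : Fin d → ℕ)
      (T : ((α : Fin d) → Fin (n α)) → 𝕜),
      (Set.range T).ncard ≤ s → ¬ RankLT R T (fun _ => univ) G →
      ∃ X : (α : Fin d) → Finset (Fin (n α)), (∀ α, (X α).card ≤ l) ∧ ¬ RankLT R T X l := by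
    intro l
    rcases Nat.lt_or_ge l 4 with hl | hl
    · interval_cases l
      · exact ⟨0, fun 𝕜 _ n T _ _ => ⟨fun _ => ∅, fun _ => by simp, fun ⟨r, hr, _⟩ => by omega⟩⟩
      · refine ⟨1, fun 𝕜 _ n T _ hT => ?_⟩
        by_contra hcon
        push Not at hcon
        apply hT
        refine ⟨0, by omega, Fin.elim0, fun i => i.elim0, Fin.elim0, fun i => i.elim0,
          fun x _ => ?_⟩
        obtain ⟨r, hr, P, hP, f, hf, H⟩ := hcon (fun α => {x α}) (fun α => by simp)
        obtain rfl : r = 0 := by omega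
        rw [H x fun α => by simp]
        simp
      · refine ⟨2 ^ R.ncard, fun 𝕜 _ n T _ hT => ?_⟩
        by_contra hcon
        push Not at hcon
        exact hT (Pool.Agent.H402.FR.size_two hd R T hcon)
      · exact ⟨7, fun 𝕜 _ n T _ hT => minor_of_FM hR (FM_three fun h => hT (rankLT_of_SL hR h))⟩
    · obtain ⟨G, hG⟩ := slice_bounded'.{u} l s hl
      refine ⟨G + 1, fun 𝕜 _ n T hs hT => minor_of_FM hR ?_⟩
      by_cases hne : Nonempty ((α : Fin d) → Fin (n α))
      swap
      · exfalso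
        exact hT ⟨0, by omega, Fin.elim0, fun i => i.elim0, Fin.elim0, fun i => i.elim0,
          fun x _ => absurd ⟨x⟩ hne⟩
      -- the values
      have hfin : (Set.range T).Finite := Set.finite_range T
      obtain ⟨w⟩ := hne
      have hval : ∃ val : Fin s → 𝕜, ∀ x, ∃ v, T x = val v := by
        have hcard : hfin.toFinset.card ≤ s := by
          rwa [← Set.ncard_eq_toFinset_card _ hfin]
        let e := hfin.toFinset.equivFin
        refine ⟨fun v => if h : (v : ℕ) < hfin.toFinset.card then (e.symm ⟨v, h⟩ : 𝕜) else 0,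
          fun x => ?_⟩
        have hx : T x ∈ hfin.toFinset := hfin.mem_toFinset.2 ⟨x, rfl⟩
        refine ⟨⟨e ⟨T x, hx⟩, lt_of_lt_of_le (e ⟨T x, hx⟩).2 hcard⟩, ?_⟩
        dsimp only
        rw [dif_pos (e ⟨T x, hx⟩).2]
        simp
      obtain ⟨val, hval⟩ := hval
      exact hG 𝕜 _ _ _ (fun x y z => T (mix3 c x y z)) val (fun x y z => hval _)
        fun h => hT (rankLT_of_SL hR (h.mono (Nat.le_succ G)))
  choose G hG using key
  exact ⟨G, fun 𝕜 _ n T hs l hT => hG l 𝕜 n T hs hT⟩

end Pool.Agent.H402.FF
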