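import Pool.Agent.H402.FF.Sym

/-!
# Project FF (helper402): order type tensors, cases I and II
-/

set_option autoImplicit false

open Finset

namespace Pool.Agent.H402.FF

universe u

variable {F : Type u} [Field F]

/-- `P ≠ 0`, `P ≠ R`. -/
theorem caseI_main (h1 : S_wa.{u}) (h2 : S_wb.{u}) {T : ℤ → ℤ → ℤ → F} {e a b c P R : F}
    (h : AgI T e a b c P R) (hP : P ≠ 0) (hPR : P ≠ R) (n : ℕ) (hn : 1 ≤ n) : FM T (n + 1) := by
  by_contra hT
  -- the four vertices
  have v1 : e + c = 0 := by
    by_contra hv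
    exact hT (h1 F e a b c P R T h hP hPR hv n hn)
  have v2 : e + b + c = 0 := by
    by_contra hv
    refine hT (FM.swapXZ (h1 F _ _ _ _ _ _ _ h.swapXZ (sub_ne_zero.2 hPR) ?_ ?_ n hn))
    · intro h'
      apply hP
      linear_combination h'
    · intro h'
      apply hv
      linear_combination h'
  have v3 : e + a + b = 0 := by
    by_contra hv
    refine hT (FM.comp (h1 F _ _ _ _ _ _ _ h.rev hP hPR ?_ n hn))
    intro h'
    apply hv
    linear_combination h'
  have v4 : e + a + R = 0 := by
    by_contra hv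
    refine hT (FM.comp (FM.swapXZ (h1 F _ _ _ _ _ _ _ h.rev.swapXZ (sub_ne_zero.2 hPR) ?_ ?_ n hn)))
    · intro h'
      apply hP
      linear_combination h'
    · intro h'
      apply hv
      linear_combination h'
  have hb : b = 0 := by linear_combination v2 - v1
  have ha : a = -e := by linear_combination v3 - hb
  have hc : c = -e := by linear_combination v1
  have hR : R = 0 := by linear_combination v4 - ha
  subst hb ha hc hR
  by_cases hp : P - e = 0
  · have hPe : P = e := sub_eq_zero.1 hp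
    subst hPe
    have h' := h.rev
    refine hT (FM.comp (h2 F P 0 (fun x y z => T (-x) (-y) (-z)) ?_ hP (by rwa [add_zero]) n hn))
    have e1 : P + -P + 0 + -P + P = (0 : F) := by ring
    have e2 : -(-P + P + 0) = (-0 : F) := by ring
    have e3 : (0 : F) - 0 = 0 := by ring
    have e4 : -(-P + P) = (-0 : F) := by ring
    rw [e1, e2, e3, e4] at h'
    rw [add_zero]
    exact h'
  · refine hT (h2 F (P - e) e T ?_ hp (by rwa [sub_add_cancel]) n hn)
    rw [sub_add_cancel]
    exact h

/-- **Case I.** -/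
theorem caseI (h1 : S_wa.{u}) (h2 : S_wb.{u}) {T : ℤ → ℤ → ℤ → F} {e a b c P R : F}
    (h : AgI T e a b c P R) (hPR : P ≠ 0 ∨ R ≠ 0) (n : ℕ) (hn : 1 ≤ n) : FM T (n + 1) := by
  by_cases hP : P = 0
  · have hR : R ≠ 0 := hPR.resolve_left (not_not.2 hP)
    refine FM.swapXZ (FM.swapXY (caseI_main h1 h2 h.swapXZ.swapXY ?_ ?_ n hn))
    · rw [hP, zero_sub, neg_neg]
      exact hR
    · rw [hP, zero_sub, neg_neg]
      intro h'
      apply hR
      linear_combination h'
  · by_cases hPR' : P = R
    · refine FM.swapXY (caseI_main h1 h2 h.swapXY (neg_ne_zero.2 hP) ?_ n hn)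
      rw [hPR', sub_self]
      exact neg_ne_zero.2 (hPR' ▸ hP)
    · exact caseI_main h1 h2 h hP hPR' n hn

/-- **Case II.** -/
theorem caseII (h3 : S_al.{u}) (h4 : S_di.{u}) (e a b c a' b' c' α β γ d : F)
    (h : α ≠ 0 ∨ β ≠ 0 ∨ γ ≠ 0 ∨ d ≠ 0) (n : ℕ) (hn : 3 ≤ n) :
    FM (TII e a b c a' b' c' α β γ d) (n + 1) := by
  by_cases hα : α = 0
  · by_cases hβ : β = 0
    · by_cases hγ : γ = 0
      · have hd : d ≠ 0 := by
          rcases h with h | h | h | h
          · exact absurd hα h
          · exact absurd hβ h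
          · exact absurd hγ h
          · exact h
        subst hα hβ hγ
        exact h4 F e a b c a' b' c' d hd n hn
      · apply FM.swapYZ
        rw [TII_swapYZ]
        apply FM.swapXY
        rw [TII_swapXY]
        exact h3 F _ _ _ _ _ _ _ _ _ _ _ hγ n (by omega)
    · apply FM.swapXY
      rw [TII_swapXY]
      exact h3 F _ _ _ _ _ _ _ _ _ _ _ hβ n (by omega)
  · exact h3 F _ _ _ _ _ _ _ _ _ _ _ hα n (by omega)

end Pool.Agent.H402.FF
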