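import Mathlib

/-!
# Project FF (helper402, MP_b48e27_co): definitions

Slice rank of order-three tensors with boundedly many values (for instance over a finite field).
-/

set_option autoImplicit false

open Finset

namespace Pool.Agent.H402.FF

universe u

/-- `SL T k`: the slice rank of `T : X × Y × Z → F` is less than `k`. -/
def SL {F X Y Z : Type*} [Field F] (T : X → Y → Z → F) (k : ℕ) : Prop :=
  ∃ p q r : ℕ, p + q + r < k ∧ ∃ (a : Fin p → X → F) (g : Fin p → Y → Z → F)
    (b : Fin q → Y → F) (h : Fin q → X → Z → F) (c : Fin r → Z → F) (e : Fin r → X → Y → F),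
    ∀ x y z, T x y z = ∑ i, a i x * g i y z + ∑ i, b i y * h i x z + ∑ i, c i z * e i x y

/-- `T` has a minor of size `l` and of slice rank (at least) `l`. -/
def FM {F X Y Z : Type*} [Field F] (T : X → Y → Z → F) (l : ℕ) : Prop :=
  ∃ (px : Fin l → X) (py : Fin l → Y) (pz : Fin l → Z),
    ¬ SL (fun i j k => T (px i) (py j) (pz k)) l

/-- the indicator of `p` -/
def ind (F : Type*) [Field F] (p : Prop) [Decidable p] : F := if p then 1 else 0

/-- order type functions on pairwise different integers -/
def TI {F : Type*} [Field F] (e a b c P R : F) (x y z : ℤ) : F :=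
  e + a * ind F (y < z) + b * ind F (x < z) + c * ind F (x < y) + P * ind F (x < y ∧ y < z) +
    R * ind F (y < z ∧ z < x)

/-- `T` is given by `TI` on the triples of pairwise different integers. -/
def AgI {F : Type*} [Field F] (T : ℤ → ℤ → ℤ → F) (e a b c P R : F) : Prop :=
  ∀ x y z : ℤ, x ≠ y → y ≠ z → x ≠ z → T x y z = TI e a b c P R x y z

/-- order type functions whose values at triples of different integers are pairwise sums -/
def TII {F : Type*} [Field F] (e a b c a' b' c' α β γ d : F) (x y z : ℤ) : F :=
  e + a * ind F (y < z) + b * ind F (x < z) + c * ind F (x < y) + a' * ind F (y = z) +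
    b' * ind F (x = z) + c' * ind F (x = y) + α * ind F (x < y ∧ y = z) +
    β * ind F (y < x ∧ x = z) + γ * ind F (z < x ∧ x = y) + d * ind F (x = y ∧ y = z)

/-- The alternating sum of the eight values of a box vanishes. -/
def Dz {F : Type*} [Field F] (E : Bool → Bool → Bool → F) : Prop :=
  E true true true - E true true false - E true false true + E true false false
    - E false true true + E false true false + E false false true - E false false false = 0

end Pool.Agent.H402.FF
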