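import Pool.Agent.H402.FF.OT

/-!
# Project FF (helper402): tensors with boundedly many values
-/

set_option autoImplicit false

open Finset

namespace Pool.Agent.H402.FF

universe u

/-- The values of a finite colouring along an ultrafilter. -/
theorem exists_lim {κ : Type} [Finite κ] (𝒰 : Ultrafilter ℕ) (c : ℕ → κ) :
    ∃ v, ∀ᶠ G in (𝒰 : Filter ℕ), c G = v := by
  obtain ⟨v, hv⟩ := (𝒰.map c).eq_pure_of_finite
  refine ⟨v, ?_⟩
  have h : ({v} : Set κ) ∈ 𝒰.map c := by
    rw [hv]
    exact Set.mem_singleton v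
  exact h

theorem ev_exists {ι : Type} [Finite ι] (𝒰 : Ultrafilter ℕ) (p : ι → ℕ → Prop)
    (h : ∀ᶠ G in (𝒰 : Filter ℕ), ∃ i, p i G) : ∃ i, ∀ᶠ G in (𝒰 : Filter ℕ), p i G := by
  by_contra hc
  push Not at hc
  have h1 : ∀ i, ∀ᶠ G in (𝒰 : Filter ℕ), ¬ p i G := fun i => hc i
  have h2 : ∀ᶠ G in (𝒰 : Filter ℕ), ∀ i, ¬ p i G := Filter.eventually_all.2 h1
  obtain ⟨G, ⟨i, hi⟩, hG⟩ := (h.and h2).exists
  exact hG i hi

theorem SL_of_empty {F : Type u} [Field F] {X Y Z : Type} {T : X → Y → Z → F} {k : ℕ}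
    (h : IsEmpty X ∨ IsEmpty Y ∨ IsEmpty Z) : SL T (k + 1) := by
  refine ⟨0, 0, 0, by omega, Fin.elim0, Fin.elim0, Fin.elim0, Fin.elim0, Fin.elim0, Fin.elim0,
    fun x y z => ?_⟩
  rcases h with h | h | h
  · exact (h.false x).elim
  · exact (h.false y).elim
  · exact (h.false z).elim

/-- The combinatorial core over one field: sequences on which the tensor depends on the order type. -/
theorem full_of_seq (h1 : S_wa.{u}) (h2 : S_wb.{u}) (h3 : S_al.{u}) (h4 : S_di.{u})
    {F : Type u} [Field F] {X Y Z : Type} (T : X → Y → Z → F) (l : ℕ) (hl : 4 ≤ l)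
    (xs : ℕ → Bool → X) (ys : ℕ → Bool → Y) (zs : ℕ → Bool → Z)
    (W : Bool → Bool → Bool → Ordering → Ordering → Ordering → F)
    (hT : ∀ (s u r : Bool) (i j k : ℕ), i < 3 * l → j < 3 * l → k < 3 * l →
      T (xs i s) (ys j u) (zs k r) = W s u r (compare i j) (compare i k) (compare j k))
    (hX : ∀ (i j k : ℕ) (s s' u r : Bool), i ≠ j → i ≠ k →
      W s u r (compare i j) (compare i k) (compare j k) =
      W s' u r (compare i j) (compare i k) (compare j k))
    (hY : ∀ (i j k : ℕ) (s u u' r : Bool), j ≠ i → j ≠ k →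
      W s u r (compare i j) (compare i k) (compare j k) =
      W s u' r (compare i j) (compare i k) (compare j k))
    (hZ : ∀ (i j k : ℕ) (s u r r' : Bool), k ≠ i → k ≠ j →
      W s u r (compare i j) (compare i k) (compare j k) =
      W s u r' (compare i j) (compare i k) (compare j k))
    (hD : ¬ Dz (fun s u r => W s u r .eq .eq .eq)) : FM T l := by
  -- the values at triples of different indices
  have hall : ∀ i j k : ℕ, i ≠ j → j ≠ k → i ≠ k → ∀ s u r,
      W s u r (compare i j) (compare i k) (compare j k) =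
      W false false false (compare i j) (compare i k) (compare j k) := by
    intro i j k hij hjk hik s u r
    rw [hX i j k s false u r hij hik, hY i j k false u false r hij.symm hjk,
      hZ i j k false false r false hik.symm hjk.symm]
  have cl : ∀ i j : ℕ, i < j → compare i j = .lt := fun i j h => compare_lt_iff_lt.2 h
  have cg : ∀ i j : ℕ, j < i → compare i j = .gt := fun i j h => compare_gt_iff_gt.2 h
  have ce : ∀ i : ℕ, compare i i = .eq := fun i => compare_eq_iff_eq.2 rfl
  have c12 := cl 1 2 (by norm_num)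
  have c13 := cl 1 3 (by norm_num)
  have c23 := cl 2 3 (by norm_num)
  have c21 := cg 2 1 (by norm_num)
  have c31 := cg 3 1 (by norm_num)
  have c32 := cg 3 2 (by norm_num)
  have c11 := ce 1
  have c22 := ce 2
  have v1 : ∀ s u r, W s u r .lt .lt .lt = W false false false .lt .lt .lt := by
    intro s u r
    have := hall 1 2 3 (by norm_num) (by norm_num) (by norm_num) s u r
    rwa [c12, c13, c23] at this
  have v2 : ∀ s u r, W s u r .lt .lt .gt = W false false false .lt .lt .gt := by
    intro s u r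
    have := hall 1 3 2 (by norm_num) (by norm_num) (by norm_num) s u r
    rwa [c12, c13, c32] at this
  have v3 : ∀ s u r, W s u r .gt .lt .lt = W false false false .gt .lt .lt := by
    intro s u r
    have := hall 2 1 3 (by norm_num) (by norm_num) (by norm_num) s u r
    rwa [c21, c23, c13] at this
  have v4 : ∀ s u r, W s u r .lt .gt .gt = W false false false .lt .gt .gt := by
    intro s u r
    have := hall 2 3 1 (by norm_num) (by norm_num) (by norm_num) s u r
    rwa [c23, c21, c31] at this
  have v5 : ∀ s u r, W s u r .gt .gt .lt = W false false false .gt .gt .lt := by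
    intro s u r
    have := hall 3 1 2 (by norm_num) (by norm_num) (by norm_num) s u r
    rwa [c31, c32, c12] at this
  have v6 : ∀ s u r, W s u r .gt .gt .gt = W false false false .gt .gt .gt := by
    intro s u r
    have := hall 3 2 1 (by norm_num) (by norm_num) (by norm_num) s u r
    rwa [c31, c32, c21] at this
  obtain ⟨n, rfl⟩ : ∃ n, l = n + 1 := ⟨l - 1, by omega⟩
  by_contra hF
  have key : ∀ s u r, ¬ FM (OT (W s u r)) (n + 1) := by
    intro s u r h
    exact hF (FM_of_OT (w := W s u r) (fun i => xs i s) (fun i => ys i u) (fun i => zs i r)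
      (fun i j k hi hj hk => hT s u r i j k hi hj hk) h)
  have hPR : ∀ s u r, pP (W s u r) = 0 ∧ pR (W s u r) = 0 := by
    intro s u r
    by_contra hc
    refine key s u r (caseI h1 h2 (agI_OT (W s u r)) ?_ n (by omega))
    by_contra hc'
    push Not at hc'
    exact hc hc'
  have hpar : ∀ s u r, pα (W s u r) = 0 ∧ pβ (W s u r) = 0 ∧ pγ (W s u r) = 0 ∧
      pd (W s u r) = 0 := by
    intro s u r
    by_contra hc
    have h := caseII h3 h4 (pe (W s u r)) (pa (W s u r)) (pb (W s u r)) (pc (W s u r))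
      (pa' (W s u r)) (pb' (W s u r)) (pc' (W s u r)) (pα (W s u r)) (pβ (W s u r))
      (pγ (W s u r)) (pd (W s u r)) (by
        by_contra hc'
        push Not at hc'
        exact hc ⟨hc'.1, hc'.2.1, hc'.2.2.1, hc'.2.2.2⟩) n (by omega)
    rw [← OT_eq_TII (W s u r) (hPR s u r).1 (hPR s u r).2] at h
    exact key s u r h
  -- the parameters
  have we : ∀ s u r, pe (W s u r) = pe (W false false false) := fun s u r => v6 s u r
  have wc : ∀ s u r, pc (W s u r) = pc (W false false false) := fun s u r => by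
    rw [pc, pc, v4 s u r, we s u r]
  have wb : ∀ s u r, pb (W s u r) = pb (W false false false) := fun s u r => by
    rw [pb, pb, v2 s u r, we s u r, wc s u r]
  have wa : ∀ s u r, pa (W s u r) = pa (W false false false) := fun s u r => by
    rw [pa, pa, v3 s u r, we s u r, wb s u r]
  have wa' : ∀ s u r, pa' (W s u r) = pa' (W false u r) := fun s u r => by
    have := hX 2 1 1 s false u r (by norm_num) (by norm_num)
    rw [c21, c11] at this
    rw [pa', pa', this, we s u r, we false u r]
  have wb' : ∀ s u r, pb' (W s u r) = pb' (W s false r) := fun s u r => by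
    have := hY 1 2 1 s u false r (by norm_num) (by norm_num)
    rw [c12, c11, c21] at this
    rw [pb', pb', this, we s u r, we s false r, wc s u r, wc s false r]
  have wc' : ∀ s u r, pc' (W s u r) = pc' (W s u false) := fun s u r => by
    have := hZ 1 1 2 s u r false (by norm_num) (by norm_num)
    rw [c12, c11] at this
    rw [pc', pc', this, we s u r, we s u false, wa s u r, wa s u false, wb s u r, wb s u false]
  have weq : ∀ s u r, W s u r .eq .eq .eq =
      pe (W false false false) + pa' (W false u r) + pb' (W s false r) + pc' (W s u false) := by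
    intro s u r
    have := (hpar s u r).2.2.2
    rw [pd, we s u r, wa' s u r, wb' s u r, wc' s u r] at this
    linear_combination this
  apply hD
  unfold Dz
  simp only [weq]
  ring

/-- **Main theorem** of the project (with the `S_X` as hypotheses). -/
theorem main (hc : S_core.{u}) (hp : S_part.{u}) (hu : S_ult) (hs : S_seq) (h1 : S_wa.{u})
    (h2 : S_wb.{u}) (h3 : S_al.{u}) (h4 : S_di.{u}) (l s : ℕ) (hl : 4 ≤ l) :
    ∃ G : ℕ, ∀ (F : Type u) [Field F] (n₁ n₂ n₃ : ℕ) (T : Fin n₁ → Fin n₂ → Fin n₃ → F)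
      (val : Fin s → F), (∀ x y z, ∃ v, T x y z = val v) → ¬ SL T G → FM T l := by
  by_contra hcon
  push Not at hcon
  have hcon' := fun G : ℕ => hcon (G + 1)
  choose F inst n₁ n₂ n₃ T val hval hSL hFM using hcon'
  choose t ht using hval
  let X : Type := ∀ G, Fin (n₁ G)
  let Y : Type := ∀ G, Fin (n₂ G)
  let Z : Type := ∀ G, Fin (n₃ G)
  have ne1 : ∀ G, Nonempty (Fin (n₁ G)) := fun G => by
    by_contra hne
    exact hSL G (SL_of_empty (Or.inl (not_nonempty_iff.1 hne)))
  have ne2 : ∀ G, Nonempty (Fin (n₂ G)) := fun G => by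
    by_contra hne
    exact hSL G (SL_of_empty (Or.inr (Or.inl (not_nonempty_iff.1 hne))))
  have ne3 : ∀ G, Nonempty (Fin (n₃ G)) := fun G => by
    by_contra hne
    exact hSL G (SL_of_empty (Or.inr (Or.inr (not_nonempty_iff.1 hne))))
  let 𝒰 : Ultrafilter ℕ := Filter.hyperfilter ℕ
  choose tst htst using fun (x : X) (y : Y) (z : Z) => exists_lim 𝒰 (fun G => t G (x G) (y G) (z G))
  let D : (Bool → Bool → Bool → Fin s) → Prop :=
    fun E => ∀ᶠ G in (𝒰 : Filter ℕ), Dz (fun a b c => val G (E a b c))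
  obtain ⟨p, q, r, hpqr⟩ := hu X Y Z (Fin s) tst D (by
    by_contra hcc
    push Not at hcc
    obtain ⟨N, f, g, h, hbox⟩ := hcc
    obtain ⟨K, hK⟩ := hc (3 * N + 1)
    have hmin : ∀ G, ∃ (px : Fin K → Fin (n₁ G)) (py : Fin K → Fin (n₂ G))
        (pz : Fin K → Fin (n₃ G)), K ≤ G →
        ¬ SL (fun i j k => T G (px i) (py j) (pz k)) (3 * N + 1) := by
      intro G
      by_cases hKG : K ≤ G
      · obtain ⟨px, py, pz, hm⟩ := hK (F G) (n₁ G) (n₂ G) (n₃ G) (T G)
          (fun hh => hSL G (hh.mono (by omega)))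
        exact ⟨px, py, pz, fun _ => hm⟩
      · exact ⟨fun _ => (ne1 G).some, fun _ => (ne2 G).some, fun _ => (ne3 G).some,
          fun hh => absurd hh hKG⟩
    choose px py pz hm using hmin
    let xst : Fin K → X := fun i G => px G i
    let yst : Fin K → Y := fun i G => py G i
    let zst : Fin K → Z := fun i G => pz G i
    have hex : ∀ᶠ G in (𝒰 : Filter ℕ), ∃ b : (Bool → Fin K) × (Bool → Fin K) × (Bool → Fin K),
        (f (xst (b.1 true)) = f (xst (b.1 false)) ∧ g (yst (b.2.1 true)) = g (yst (b.2.1 false)) ∧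
          h (zst (b.2.2 true)) = h (zst (b.2.2 false))) ∧
        ¬ Dz (fun a c e => T G (px G (b.1 a)) (py G (b.2.1 c)) (pz G (b.2.2 e))) := by
      have hge : ∀ᶠ G in (𝒰 : Filter ℕ), K ≤ G :=
        Nat.hyperfilter_le_atTop (Filter.eventually_ge_atTop K)
      refine hge.mono fun G hKG => ?_
      by_contra hno
      push Not at hno
      refine hm G hKG (hp (F G) (Fin K) (Fin K) (Fin K) N (fun i => f (xst i)) (fun i => g (yst i))
        (fun i => h (zst i)) _ fun x y z hx hy hz => ?_)
      exact hno (x, y, z) ⟨hx, hy, hz⟩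
    obtain ⟨b, hb⟩ := ev_exists 𝒰 _ hex
    have hb1 := (hb.exists.choose_spec).1
    have hD := hbox (fun a => xst (b.1 a)) (fun a => yst (b.2.1 a)) (fun a => zst (b.2.2 a))
      hb1.1 hb1.2.1 hb1.2.2
    have hcol : ∀ᶠ G in (𝒰 : Filter ℕ), ∀ a c e : Bool,
        t G (px G (b.1 a)) (py G (b.2.1 c)) (pz G (b.2.2 e)) =
          tst (xst (b.1 a)) (yst (b.2.1 c)) (zst (b.2.2 e)) :=
      Filter.eventually_all.2 fun a => Filter.eventually_all.2 fun c => Filter.eventually_all.2
        fun e => htst _ _ _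
    obtain ⟨G, ⟨hG1, hG2⟩, hG3⟩ := ((hb.and hD).and hcol).exists
    apply hG1.2
    have heq : (fun a c e => T G (px G (b.1 a)) (py G (b.2.1 c)) (pz G (b.2.2 e))) =
        fun a c e => val G (tst (xst (b.1 a)) (yst (b.2.1 c)) (zst (b.2.2 e))) := by
      funext a c e
      rw [ht, hG3]
    rw [heq]
    exact hG2)
  obtain ⟨xs, ys, zs, V, hV, hX, hY, hZ, hD⟩ := hs X Y Z (Fin s) tst D p q r hpqr
  have hcol : ∀ᶠ G in (𝒰 : Filter ℕ), ∀ (a b c : Bool) (i j k : Fin (3 * l)),
      t G (xs i a G) (ys j b G) (zs k c G) =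
        V (compare (i : ℕ) (j : ℕ)) (compare (i : ℕ) (k : ℕ)) (compare (j : ℕ) (k : ℕ)) a b c := by
    refine Filter.eventually_all.2 fun a => Filter.eventually_all.2 fun b =>
      Filter.eventually_all.2 fun c => Filter.eventually_all.2 fun i =>
      Filter.eventually_all.2 fun j => Filter.eventually_all.2 fun k => ?_
    rw [← hV]
    exact htst _ _ _
  have hD0 : ∀ᶠ G in (𝒰 : Filter ℕ),
      ¬ Dz (fun a b c => val G (tst (xs 0 a) (ys 0 b) (zs 0 c))) := by
    rw [Ultrafilter.eventually_not]
    exact hD 0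
  obtain ⟨G, hG1, hG2⟩ := (hcol.and hD0).exists
  have cee : compare 0 0 = Ordering.eq := compare_eq_iff_eq.2 rfl
  refine hFM G (full_of_seq h1 h2 h3 h4 (T G) l hl (fun i a => xs i a G) (fun i a => ys i a G)
    (fun i a => zs i a G) (fun a b c o1 o2 o3 => val G (V o1 o2 o3 a b c)) ?_ ?_ ?_ ?_ ?_)
  · intro a b c i j k hi hj hk
    have := hG1 a b c ⟨i, hi⟩ ⟨j, hj⟩ ⟨k, hk⟩
    simp only at this
    rw [ht, this]
  · intro i j k a a' b c hij hik
    rw [← hV, ← hV, hX i j k a a' b c hij hik]
  · intro i j k a b b' c hij hik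
    rw [← hV, ← hV, hY i j k a b b' c hij hik]
  · intro i j k a b c c' hij hik
    rw [← hV, ← hV, hZ i j k a b c c' hij hik]
  · intro hdz
    apply hG2
    simp only [hV]
    exact hdz

end Pool.Agent.H402.FF
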