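import Pool.Agent.H402.FF.CaseI

/-!
# Project FF (helper402): order type functions, compression of positions
-/

set_option autoImplicit false
set_option linter.unusedSimpArgs false

open Finset

namespace Pool.Agent.H402.FF

universe u

variable {F : Type u} [Field F]

/-- the function given by the values at the order types -/
def OT (w : Ordering → Ordering → Ordering → F) (x y z : ℤ) : F :=
  w (compare x y) (compare x z) (compare y z)

section par

variable (w : Ordering → Ordering → Ordering → F)

def pe : F := w .gt .gt .gt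
def pc : F := w .lt .gt .gt - pe w
def pb : F := w .lt .lt .gt - pe w - pc w
def pa : F := w .gt .lt .lt - pe w - pb w
def pR : F := w .gt .gt .lt - pe w - pa w
def pP : F := w .lt .lt .lt - pe w - pa w - pb w - pc w
def pa' : F := w .gt .gt .eq - pe w
def pα : F := w .lt .lt .eq - pe w - pb w - pc w - pa' w
def pb' : F := w .lt .eq .gt - pe w - pc w
def pβ : F := w .gt .eq .lt - pe w - pa w - pb' w
def pc' : F := w .eq .lt .lt - pe w - pa w - pb w
def pγ : F := w .eq .gt .gt - pe w - pc' w
def pd : F := w .eq .eq .eq - pe w - pa' w - pb' w - pc' w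

theorem cmp_lt {x y : ℤ} (h : x < y) : compare x y = .lt := compare_lt_iff_lt.2 h
theorem cmp_gt {x y : ℤ} (h : y < x) : compare x y = .gt := compare_gt_iff_gt.2 h
theorem cmp_eq {x y : ℤ} (h : x = y) : compare x y = .eq := compare_eq_iff_eq.2 h

theorem agI_OT : AgI (OT w) (pe w) (pa w) (pb w) (pc w) (pP w) (pR w) := by
  intro x y z hxy hyz hxz
  rcases lt_trichotomy x y with h1 | h1 | h1
  all_goals rcases lt_trichotomy y z with h2 | h2 | h2
  all_goals rcases lt_trichotomy x z with h3 | h3 | h3
  all_goals first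
    | (exfalso; omega)
    | skip
  · simp only [OT, TI, ind, cmp_lt h1, cmp_lt h2, cmp_lt h3, h1, h2, h3, h1.not_gt, h2.not_gt,
      h3.not_gt, if_true, if_false, and_true, and_false, true_and, false_and, pP]
    ring
  · simp only [OT, TI, ind, cmp_lt h1, cmp_gt h2, cmp_lt h3, h1, h2, h3, h1.not_gt, h2.not_gt,
      h3.not_gt, if_true, if_false, and_true, and_false, true_and, false_and, pb]
    ring
  · simp only [OT, TI, ind, cmp_lt h1, cmp_gt h2, cmp_gt h3, h1, h2, h3, h1.not_gt, h2.not_gt,
      h3.not_gt, if_true, if_false, and_true, and_false, true_and, false_and, pc]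
    ring
  · simp only [OT, TI, ind, cmp_gt h1, cmp_lt h2, cmp_lt h3, h1, h2, h3, h1.not_gt, h2.not_gt,
      h3.not_gt, if_true, if_false, and_true, and_false, true_and, false_and, pa]
    ring
  · simp only [OT, TI, ind, cmp_gt h1, cmp_lt h2, cmp_gt h3, h1, h2, h3, h1.not_gt, h2.not_gt,
      h3.not_gt, if_true, if_false, and_true, and_false, true_and, false_and, pR]
    ring
  · simp only [OT, TI, ind, cmp_gt h1, cmp_gt h2, cmp_gt h3, h1, h2, h3, h1.not_gt, h2.not_gt,
      h3.not_gt, if_true, if_false, and_true, and_false, true_and, false_and, pe]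
    ring

theorem OT_eq_TII (hP : pP w = 0) (hR : pR w = 0) :
    OT w = TII (pe w) (pa w) (pb w) (pc w) (pa' w) (pb' w) (pc' w) (pα w) (pβ w) (pγ w) (pd w) := by
  funext x y z
  rcases lt_trichotomy x y with h1 | h1 | h1
  all_goals rcases lt_trichotomy y z with h2 | h2 | h2
  all_goals rcases lt_trichotomy x z with h3 | h3 | h3
  all_goals first
    | (exfalso; omega)
    | skip
  all_goals simp only [OT, TII, ind]
  · rw [cmp_lt h1, cmp_lt h2, cmp_lt h3]
    simp only [h1, h2, h3, h1.not_gt, h2.not_gt, h3.not_gt, h1.ne, h2.ne, h3.ne, if_true, if_false,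
      and_true, and_false, true_and, false_and]
    rw [pP] at hP
    linear_combination hP
  · rw [cmp_lt h1, cmp_eq h2, cmp_lt h3]
    subst h2
    simp only [h1, h1.not_gt, h1.ne, if_true, if_false, lt_irrefl,
      and_true, and_false, true_and, false_and, pα]
    ring
  · rw [cmp_lt h1, cmp_gt h2, cmp_lt h3]
    simp only [h1, h2, h3, h1.not_gt, h2.not_gt, h3.not_gt, h1.ne, h2.ne', h3.ne, if_true, if_false,
      and_true, and_false, true_and, false_and, pb]
    ring
  · rw [cmp_lt h1, cmp_gt h2, cmp_eq h3]
    subst h3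
    simp only [h1, h1.not_gt, h1.ne, h1.ne', if_true, if_false, lt_irrefl,
      and_true, and_false, true_and, false_and, pb']
    ring
  · rw [cmp_lt h1, cmp_gt h2, cmp_gt h3]
    simp only [h1, h2, h3, h1.not_gt, h2.not_gt, h3.not_gt, h1.ne, h2.ne', h3.ne', if_true, if_false,
      and_true, and_false, true_and, false_and, pc]
    ring
  · rw [cmp_eq h1, cmp_lt h2, cmp_lt h3]
    subst h1
    simp only [h2, h2.not_gt, h2.ne, h2.ne', if_true, if_false, lt_irrefl,
      and_true, and_false, true_and, false_and, pc']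
    ring
  · rw [cmp_eq h1, cmp_eq h2, cmp_eq h3]
    subst h1 h2
    simp only [if_true, if_false, lt_irrefl,
      and_true, and_false, true_and, false_and, pd]
    ring
  · rw [cmp_eq h1, cmp_gt h2, cmp_gt h3]
    subst h1
    simp only [h2, h2.not_gt, h2.ne, h2.ne', if_true, if_false, lt_irrefl,
      and_true, and_false, true_and, false_and, pγ]
    ring
  · rw [cmp_gt h1, cmp_lt h2, cmp_lt h3]
    simp only [h1, h2, h3, h1.not_gt, h2.not_gt, h3.not_gt, h1.ne', h2.ne, h3.ne, if_true, if_false,
      and_true, and_false, true_and, false_and, pa]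
    ring
  · rw [cmp_gt h1, cmp_lt h2, cmp_eq h3]
    subst h3
    simp only [h1, h1.not_gt, h1.ne, h1.ne', if_true, if_false, lt_irrefl,
      and_true, and_false, true_and, false_and, pβ]
    ring
  · rw [cmp_gt h1, cmp_lt h2, cmp_gt h3]
    simp only [h1, h2, h3, h1.not_gt, h2.not_gt, h3.not_gt, h1.ne', h2.ne, h3.ne', if_true, if_false,
      and_true, and_false, true_and, false_and]
    rw [pR] at hR
    linear_combination hR
  · rw [cmp_gt h1, cmp_eq h2, cmp_gt h3]
    subst h2
    simp only [h1, h1.not_gt, h1.ne, h1.ne', if_true, if_false, lt_irrefl,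
      and_true, and_false, true_and, false_and, pa']
    ring
  · rw [cmp_gt h1, cmp_gt h2, cmp_gt h3]
    simp only [h1, h2, h3, h1.not_gt, h2.not_gt, h3.not_gt, h1.ne', h2.ne', h3.ne', if_true, if_false,
      and_true, and_false, true_and, false_and, pe]
    ring

end par

/-- Compression of the positions. -/
theorem FM_of_OT {X Y Z : Type*} {w : Ordering → Ordering → Ordering → F} {T : X → Y → Z → F}
    {l : ℕ} (xs : ℕ → X) (ys : ℕ → Y) (zs : ℕ → Z)
    (hT : ∀ i j k : ℕ, i < 3 * l → j < 3 * l → k < 3 * l →
      T (xs i) (ys j) (zs k) = w (compare i j) (compare i k) (compare j k))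
    (h : FM (OT w) l) : FM T l := by
  obtain ⟨px, py, pz, H⟩ := h
  let S : Finset ℤ := univ.image px ∪ univ.image py ∪ univ.image pz
  have hS : S.card ≤ 3 * l := by
    have h1 : (univ.image px).card ≤ l := by
      refine card_image_le.trans ?_
      simp
    have h2 : (univ.image py).card ≤ l := by
      refine card_image_le.trans ?_
      simp
    have h3 : (univ.image pz).card ≤ l := by
      refine card_image_le.trans ?_
      simp
    have h4 : S.card ≤ (univ.image px ∪ univ.image py).card + (univ.image pz).card :=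
      card_union_le _ _
    have h5 : (univ.image px ∪ univ.image py).card ≤ (univ.image px).card + (univ.image py).card :=
      card_union_le _ _
    omega
  let f : ℤ → ℕ := fun x => (S.filter (· < x)).card
  have hf : ∀ x ∈ S, f x < 3 * l := by
    intro x hx
    refine lt_of_lt_of_le (card_lt_card ?_) hS
    refine (filter_ssubset).2 ⟨x, hx, lt_irrefl x⟩
  have hmono : ∀ x ∈ S, ∀ y ∈ S, x < y → f x < f y := by
    intro x hx y hy hxy
    refine card_lt_card ⟨fun a ha => ?_, fun hsub => ?_⟩
    · rw [mem_filter] at ha ⊢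
      exact ⟨ha.1, ha.2.trans hxy⟩
    · have : x ∈ S.filter (· < x) := hsub (mem_filter.2 ⟨hx, hxy⟩)
      exact lt_irrefl _ (mem_filter.1 this).2
  have hcmp : ∀ x ∈ S, ∀ y ∈ S, compare (f x) (f y) = compare x y := by
    intro x hx y hy
    rcases lt_trichotomy x y with h1 | h1 | h1
    · rw [compare_lt_iff_lt.2 h1, compare_lt_iff_lt.2 (hmono x hx y hy h1)]
    · subst h1
      rw [compare_eq_iff_eq.2 rfl, compare_eq_iff_eq.2 rfl]
    · rw [compare_gt_iff_gt.2 h1, compare_gt_iff_gt.2 (hmono y hy x hx h1)]
  have mx : ∀ i, px i ∈ S := fun i => mem_union_left _ (mem_union_left _ (mem_image_of_mem _ (mem_univ i)))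
  have my : ∀ i, py i ∈ S := fun i => mem_union_left _ (mem_union_right _ (mem_image_of_mem _ (mem_univ i)))
  have mz : ∀ i, pz i ∈ S := fun i => mem_union_right _ (mem_image_of_mem _ (mem_univ i))
  refine ⟨fun i => xs (f (px i)), fun i => ys (f (py i)), fun i => zs (f (pz i)), ?_⟩
  have heq : (fun i j k : Fin l => T (xs (f (px i))) (ys (f (py j))) (zs (f (pz k)))) =
      fun i j k => OT w (px i) (py j) (pz k) := by
    funext i j k
    rw [hT _ _ _ (hf _ (mx i)) (hf _ (my j)) (hf _ (mz k)), hcmp _ (mx i) _ (my j),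
      hcmp _ (mx i) _ (mz k), hcmp _ (my j) _ (mz k)]
    rfl
  rw [heq]
  exact H

end Pool.Agent.H402.FF
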