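import Pool.Agent.H402.FF.Stm

/-!
# Project FF (helper402): symmetries of slice rank and of the order type tensors
-/

set_option autoImplicit false
set_option linter.unusedSimpArgs false

open Finset

namespace Pool.Agent.H402.FF

universe u

variable {F X Y Z X' Y' Z' : Type*} [Field F]

theorem SL.mono {T : X → Y → Z → F} {k l : ℕ} (h : SL T k) (hkl : k ≤ l) : SL T l := by
  obtain ⟨p, q, r, hp, a, g, b, h, c, e, H⟩ := h
  exact ⟨p, q, r, by omega, a, g, b, h, c, e, H⟩

theorem SL.comp {T : X → Y → Z → F} {k : ℕ} (h : SL T k) (f : X' → X) (g : Y' → Y) (h' : Z' → Z) :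
    SL (fun x y z => T (f x) (g y) (h' z)) k := by
  obtain ⟨p, q, r, hp, a, u, b, v, c, e, H⟩ := h
  exact ⟨p, q, r, hp, fun i x => a i (f x), fun i y z => u i (g y) (h' z), fun i y => b i (g y),
    fun i x z => v i (f x) (h' z), fun i z => c i (h' z), fun i x y => e i (f x) (g y),
    fun x y z => H _ _ _⟩

theorem SL.swapXY {T : X → Y → Z → F} {k : ℕ} (h : SL T k) : SL (fun y x z => T x y z) k := by
  obtain ⟨p, q, r, hp, a, u, b, v, c, e, H⟩ := h
  refine ⟨q, p, r, by omega, b, v, a, u, c, fun i y x => e i x y, fun y x z => ?_⟩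
  show T x y z = _
  rw [H]
  ring

theorem SL.swapYZ {T : X → Y → Z → F} {k : ℕ} (h : SL T k) : SL (fun x z y => T x y z) k := by
  obtain ⟨p, q, r, hp, a, u, b, v, c, e, H⟩ := h
  refine ⟨p, r, q, by omega, a, fun i z y => u i y z, c, e, b, v, fun x z y => ?_⟩
  show T x y z = _
  rw [H]
  ring

theorem FM.swapXY {T : X → Y → Z → F} {l : ℕ} (h : FM (fun y x z => T x y z) l) : FM T l := by
  obtain ⟨px, py, pz, H⟩ := h
  exact ⟨py, px, pz, fun h' => H h'.swapXY⟩

theorem FM.swapYZ {T : X → Y → Z → F} {l : ℕ} (h : FM (fun x z y => T x y z) l) : FM T l := by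
  obtain ⟨px, py, pz, H⟩ := h
  exact ⟨px, pz, py, fun h' => H h'.swapYZ⟩

theorem FM.swapXZ {T : X → Y → Z → F} {l : ℕ} (h : FM (fun z y x => T x y z) l) : FM T l := by
  apply FM.swapXY
  apply FM.swapYZ
  apply FM.swapXY
  exact h

theorem FM.comp {T : X → Y → Z → F} {l : ℕ} {f : X' → X} {g : Y' → Y} {h' : Z' → Z}
    (h : FM (fun x y z => T (f x) (g y) (h' z)) l) : FM T l := by
  obtain ⟨px, py, pz, H⟩ := h
  exact ⟨fun i => f (px i), fun i => g (py i), fun i => h' (pz i), H⟩

theorem ind_true {p : Prop} [Decidable p] (h : p) : ind F p = 1 := if_pos h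

theorem ind_false {p : Prop} [Decidable p] (h : ¬ p) : ind F p = 0 := if_neg h

theorem TII_swapXY (e a b c a' b' c' α β γ d : F) :
    (fun y x z => TII e a b c a' b' c' α β γ d x y z) =
      TII (e + c) b a (-c) b' a' (c' - c) β α γ d := by
  funext y x z
  rcases lt_trichotomy x y with h1 | h1 | h1
  all_goals rcases lt_trichotomy y z with h2 | h2 | h2
  all_goals rcases lt_trichotomy x z with h3 | h3 | h3
  all_goals first
    | (exfalso; omega)
    | (simp [TII, ind, h1, h2, h3, h1.ne, h1.ne', h2.ne, h2.ne', h3.ne, h3.ne', h1.not_gt,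
        h2.not_gt, h3.not_gt] <;> try ring)
    | (simp [TII, ind, h1, h2, h1.ne, h1.ne', h2.ne, h2.ne', h3, h1.not_gt, h2.not_gt] <;> try ring)
    | (simp [TII, ind, h1, h2, h3, h1.ne, h1.ne', h3.ne, h3.ne', h1.not_gt, h3.not_gt] <;> try ring)
    | (simp [TII, ind, h1, h2, h3, h2.ne, h2.ne', h3.ne, h3.ne', h2.not_gt, h3.not_gt] <;> try ring)
    | (simp [TII, ind, h1, h2] <;> try ring)

theorem TII_swapYZ (e a b c a' b' c' α β γ d : F) :
    (fun x z y => TII e a b c a' b' c' α β γ d x y z) =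
      TII (e + a) (-a) c b (a' - a) c' b' α γ β d := by
  funext x z y
  rcases lt_trichotomy x y with h1 | h1 | h1
  all_goals rcases lt_trichotomy y z with h2 | h2 | h2
  all_goals rcases lt_trichotomy x z with h3 | h3 | h3
  all_goals first
    | (exfalso; omega)
    | (simp [TII, ind, h1, h2, h3, h1.ne, h1.ne', h2.ne, h2.ne', h3.ne, h3.ne', h1.not_gt,
        h2.not_gt, h3.not_gt] <;> try ring)
    | (simp [TII, ind, h1, h2, h1.ne, h1.ne', h2.ne, h2.ne', h3, h1.not_gt, h2.not_gt] <;> try ring)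
    | (simp [TII, ind, h1, h2, h3, h1.ne, h1.ne', h3.ne, h3.ne', h1.not_gt, h3.not_gt] <;> try ring)
    | (simp [TII, ind, h1, h2, h3, h2.ne, h2.ne', h3.ne, h3.ne', h2.not_gt, h3.not_gt] <;> try ring)
    | (simp [TII, ind, h1, h2] <;> try ring)

theorem AgI.swapXZ {T : ℤ → ℤ → ℤ → F} {e a b c P R : F} (h : AgI T e a b c P R) :
    AgI (fun x y z => T z y x) (e + a + b + c + P) (-c - P + R) (-b) (-a - P) (P - R) (-R) := by
  intro x y z hxy hyz hxz
  show T z y x = _
  rw [h z y x hyz.symm hxy.symm hxz.symm]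
  rcases lt_trichotomy x y with h1 | h1 | h1
  all_goals rcases lt_trichotomy y z with h2 | h2 | h2
  all_goals rcases lt_trichotomy x z with h3 | h3 | h3
  all_goals first
    | (exfalso; omega)
    | (simp [TI, ind, h1, h2, h3, h1.ne, h2.ne, h1.not_gt, h2.not_gt, h3.ne, h3.not_gt] <;> try ring)

theorem AgI.swapXY {T : ℤ → ℤ → ℤ → F} {e a b c P R : F} (h : AgI T e a b c P R) :
    AgI (fun x y z => T y x z) (e + c) (b + P - R) (a + R) (-c) (-P) (R - P) := by
  intro x y z hxy hyz hxz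
  show T y x z = _
  rw [h y x z hxy.symm hxz hyz]
  rcases lt_trichotomy x y with h1 | h1 | h1
  all_goals rcases lt_trichotomy y z with h2 | h2 | h2
  all_goals rcases lt_trichotomy x z with h3 | h3 | h3
  all_goals first
    | (exfalso; omega)
    | (simp [TI, ind, h1, h2, h3, h1.ne, h2.ne, h1.not_gt, h2.not_gt, h3.ne, h3.not_gt] <;> try ring)

theorem AgI.rev {T : ℤ → ℤ → ℤ → F} {e a b c P R : F} (h : AgI T e a b c P R) :
    AgI (fun x y z => T (-x) (-y) (-z)) (e + a + b + c + P) (-(a + P + R)) (R - b) (-(c + P)) P R := by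
  intro x y z hxy hyz hxz
  show T (-x) (-y) (-z) = _
  rw [h (-x) (-y) (-z) (by omega) (by omega) (by omega)]
  rcases lt_trichotomy x y with h1 | h1 | h1
  all_goals rcases lt_trichotomy y z with h2 | h2 | h2
  all_goals rcases lt_trichotomy x z with h3 | h3 | h3
  all_goals first
    | (exfalso; omega)
    | (simp [TI, ind, h1, h2, h3, h1.ne, h2.ne, h1.not_gt, h2.not_gt, h3.ne, h3.not_gt] <;> try ring)

end Pool.Agent.H402.FF
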